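import Pool.Agent.Helper49_RK.Str

/-!
# The Martin-Loef test
-/

namespace Helper49_RK

open Primrec MeasureTheory
open Nat.Partrec (Code)
open scoped ENNReal

/-- Stage `t` of the relation enumerated by the code `e` with the programs in `Pl`. -/
def st (e : Code) (Pl : List (List Bool)) (t v : ℕ) : Prop :=
  v.unpair.2.unpair.2 < 2 ^ v.unpair.1 ∧ ∃ p ∈ Pl,
    Code.evaln t e (Encodable.encode (p, toStr v.unpair.1 v.unpair.2.unpair.1)) =
      some (Encodable.encode (toStr v.unpair.1 v.unpair.2.unpair.2))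

theorem stP (e : Code) (Pl : List (List Bool)) : PrimrecRel (st e Pl) := by
  have u1 : Primrec fun v : ℕ => v.unpair.1 := fst.comp unpair
  have u2 : Primrec fun v : ℕ => v.unpair.2.unpair.1 := fst.comp (unpair.comp (snd.comp unpair))
  have u3 : Primrec fun v : ℕ => v.unpair.2.unpair.2 := snd.comp (unpair.comp (snd.comp unpair))
  have h1 : PrimrecPred fun p : ℕ × ℕ => p.2.unpair.2.unpair.2 < 2 ^ p.2.unpair.1 :=
    nat_lt.comp (u3.comp snd) (pow2P (u1.comp snd))
  have v1 : Primrec fun y : List Bool × (ℕ × ℕ) => y.2.2.unpair.1 := u1.comp (snd.comp snd)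
  have v2 : Primrec fun y : List Bool × (ℕ × ℕ) => y.2.2.unpair.2.unpair.1 :=
    u2.comp (snd.comp snd)
  have v3 : Primrec fun y : List Bool × (ℕ × ℕ) => y.2.2.unpair.2.unpair.2 :=
    u3.comp (snd.comp snd)
  have h2 : PrimrecRel fun (p : List Bool) (y : ℕ × ℕ) =>
      Code.evaln y.1 e (Encodable.encode (p, toStr y.2.unpair.1 y.2.unpair.2.unpair.1)) =
        some (Encodable.encode (toStr y.2.unpair.1 y.2.unpair.2.unpair.2)) := by
    have a1 : Primrec fun y : List Bool × (ℕ × ℕ) =>
        Encodable.encode (y.1, toStr y.2.2.unpair.1 y.2.2.unpair.2.unpair.1) :=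
      Primrec.encode.comp (fst.pair (toStrP.comp v1 v2))
    have a2 : Primrec fun y : List Bool × (ℕ × ℕ) => Code.evaln y.2.1 e
        (Encodable.encode (y.1, toStr y.2.2.unpair.1 y.2.2.unpair.2.unpair.1)) :=
      Code.primrec_evaln.comp (((fst.comp snd).pair (Primrec.const e)).pair a1)
    have a3 : Primrec fun y : List Bool × (ℕ × ℕ) =>
        some (Encodable.encode (toStr y.2.2.unpair.1 y.2.2.unpair.2.unpair.2)) :=
      option_some.comp (Primrec.encode.comp (toStrP.comp v1 v3))
    exact Primrec.eq.comp a2 a3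
  exact h1.and (bexL h2 (Primrec.const Pl))

theorem width_st (e : Code) (Pl : List (List Bool)) : Width (st e Pl) Pl.length := by
  classical
  intro R hR hst x
  have hnd : (sameKey x R).Nodup := hR.filter _
  -- choose a program for each element
  have hp : ∀ y ∈ R, ∃ p ∈ Pl, ∃ t, Code.evaln t e
      (Encodable.encode (p, toStr y.unpair.1 y.unpair.2.unpair.1)) =
      some (Encodable.encode (toStr y.unpair.1 y.unpair.2.unpair.2)) := by
    intro y hy
    obtain ⟨t, _, p, hp, h⟩ := hst y hy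
    exact ⟨p, hp, t, h⟩
  choose! f hf1 hf2 using hp
  have hinj : Set.InjOn f ((sameKey x R).toFinset : Set ℕ) := by
    intro y hy y' hy' hff
    simp only [List.coe_toFinset, Set.mem_ofPred_eq, sameKey, List.mem_filter,
      decide_eq_true_eq] at hy hy'
    obtain ⟨hyR, hy1, hy2⟩ := hy
    obtain ⟨hyR', hy1', hy2'⟩ := hy'
    obtain ⟨t, ht⟩ := hf2 y hyR
    obtain ⟨t', ht'⟩ := hf2 y' hyR'
    obtain ⟨_, hlt, _⟩ := hst y hyR
    obtain ⟨_, hlt', _⟩ := hst y' hyR'
    rw [hff, hy1, hy2] at ht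
    rw [hy1', hy2'] at ht'
    have e1 := Code.evaln_sound (Option.mem_def.2 ht)
    have e2 := Code.evaln_sound (Option.mem_def.2 ht')
    have e3 := Part.mem_unique e1 e2
    have e4 := Encodable.encode_injective e3
    rw [hy1] at hlt
    rw [hy1'] at hlt'
    have e5 := congrArg val e4
    rw [val_toStr hlt, val_toStr hlt'] at e5
    have e6 : y.unpair = y'.unpair := by
      apply Prod.ext
      · rw [hy1, hy1']
      · have : y.unpair.2.unpair = y'.unpair.2.unpair := by
          apply Prod.ext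
          · rw [hy2, hy2']
          · exact e5
        rw [← Nat.pair_unpair y.unpair.2, this, Nat.pair_unpair]
    rw [← Nat.pair_unpair y, e6, Nat.pair_unpair]
  have hmaps : ∀ y ∈ (sameKey x R).toFinset, f y ∈ Pl.toFinset := by
    intro y hy
    rw [List.mem_toFinset] at hy ⊢
    exact hf1 y (List.mem_filter.1 hy).1
  have h1 := Finset.card_le_card_of_injOn f hmaps hinj
  rw [List.toFinset_card_of_nodup hnd] at h1
  exact h1.trans (List.toFinset_card_le _)

/-- Decoding certificates. -/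
def dec (c : ℕ) : ℕ × List Ent := ((Encodable.decode c : Option (ℕ × List Ent))).getD (0, [])

theorem decP : Primrec dec := option_getD.comp Primrec.decode (Primrec.const (0, []))

theorem dec_encode (y : ℕ × List Ent) : dec (Encodable.encode y) = y := by
  rw [dec, Encodable.encodek]
  rfl

/-- `c` codes a certificate for the parameters `p = (m, ρ, q)` and width `w`. -/
def CertC (w : ℕ) (p : ℕ × ℕ × ℕ) (c : ℕ) : Prop := Cert p.1 p.2.1 w p.2.2 (dec c).1 (dec c).2

theorem certCP (w : ℕ) : PrimrecRel (CertC w) :=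
  (certP w).comp (fst.pair (decP.comp snd))

/-- `c` is the first certificate. -/
def FirstC (w : ℕ) (p : ℕ × ℕ × ℕ) (c : ℕ) : Prop := CertC w p c ∧ ∀ c' < c, ¬ CertC w p c'

theorem firstCP (w : ℕ) : PrimrecRel (FirstC w) := by
  have h1 : PrimrecRel fun (c' : ℕ) (y : (ℕ × ℕ × ℕ) × ℕ) => ¬ CertC w y.1 c' :=
    ((certCP w).comp (fst.comp snd) fst).not
  exact (certCP w).and (ballN h1 snd)

theorem exists_firstC (w : ℕ) (p : ℕ × ℕ × ℕ) (hp : p.2.1 < 2 ^ p.1) : ∃ c, FirstC w p c := by
  classical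
  obtain ⟨N, L, h⟩ := exists_cert p.1 p.2.1 w p.2.2 hp
  have hex : ∃ c, CertC w p c := ⟨Encodable.encode (N, L), by
    unfold CertC; rw [dec_encode]; exact h⟩
  exact ⟨Nat.find hex, Nat.find_spec hex, fun c' hc' => Nat.find_min hex hc'⟩

theorem FirstC.unique {w : ℕ} {p : ℕ × ℕ × ℕ} {c c' : ℕ} (h : FirstC w p c) (h' : FirstC w p c') :
    c = c' := by
  rcases lt_trichotomy c c' with hlt | heq | hlt
  · exact absurd h.1 (h'.2 c hlt)
  · exact heq
  · exact absurd h'.1 (h.2 c' hlt)

section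

variable (e : Code) (Pl : List (List Bool))

open Classical in
/-- The matrix of the enumeration of the test. -/
def Mat (y : ℕ × List Bool) (n : ℕ) : Prop :=
  n.unpair.1.unpair.2 < 2 ^ n.unpair.1.unpair.1 ∧
    FirstC Pl.length (n.unpair.1.unpair.1, n.unpair.1.unpair.2, y.1 + n.unpair.1 + 1)
      n.unpair.2.unpair.1 ∧
    (dec n.unpair.2.unpair.1).1 = y.2.length ∧
    val y.2 ∈ (runE (st e Pl) (dec n.unpair.2.unpair.1).2 (bnd (dec n.unpair.2.unpair.1).1)
      n.unpair.2.unpair.2).2

/-- The test. -/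
def V (k : ℕ) : Set (List Bool) := {σ | ∃ n, Mat e Pl (k, σ) n}

theorem matP : PrimrecRel (Mat e Pl) := by
  classical
  have u0 : Primrec fun p : (ℕ × List Bool) × ℕ => p.2.unpair.1 := fst.comp (unpair.comp snd)
  have um : Primrec fun p : (ℕ × List Bool) × ℕ => p.2.unpair.1.unpair.1 :=
    fst.comp (unpair.comp u0)
  have uρ : Primrec fun p : (ℕ × List Bool) × ℕ => p.2.unpair.1.unpair.2 :=
    snd.comp (unpair.comp u0)
  have u2 : Primrec fun p : (ℕ × List Bool) × ℕ => p.2.unpair.2 := snd.comp (unpair.comp snd)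
  have uc : Primrec fun p : (ℕ × List Bool) × ℕ => p.2.unpair.2.unpair.1 :=
    fst.comp (unpair.comp u2)
  have us : Primrec fun p : (ℕ × List Bool) × ℕ => p.2.unpair.2.unpair.2 :=
    snd.comp (unpair.comp u2)
  have uq : Primrec fun p : (ℕ × List Bool) × ℕ => p.1.1 + p.2.unpair.1 + 1 :=
    succ.comp (nat_add.comp (fst.comp fst) u0)
  have uL : Primrec fun p : (ℕ × List Bool) × ℕ => (dec p.2.unpair.2.unpair.1).2 :=
    snd.comp (decP.comp uc)
  have uN : Primrec fun p : (ℕ × List Bool) × ℕ => (dec p.2.unpair.2.unpair.1).1 :=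
    fst.comp (decP.comp uc)
  have h1 : PrimrecPred fun p : (ℕ × List Bool) × ℕ =>
      p.2.unpair.1.unpair.2 < 2 ^ p.2.unpair.1.unpair.1 := nat_lt.comp uρ (pow2P um)
  have h2 : PrimrecPred fun p : (ℕ × List Bool) × ℕ =>
      FirstC Pl.length (p.2.unpair.1.unpair.1, p.2.unpair.1.unpair.2, p.1.1 + p.2.unpair.1 + 1)
        p.2.unpair.2.unpair.1 :=
    (firstCP Pl.length).comp (um.pair (uρ.pair uq)) uc
  have h3 : PrimrecPred fun p : (ℕ × List Bool) × ℕ =>
      (dec p.2.unpair.2.unpair.1).1 = p.1.2.length :=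
    Primrec.eq.comp uN (list_length.comp (snd.comp fst))
  have h4 : Primrec fun p : (ℕ × List Bool) × ℕ =>
      runE (st e Pl) (dec p.2.unpair.2.unpair.1).2 (bnd (dec p.2.unpair.2.unpair.1).1)
        p.2.unpair.2.unpair.2 :=
    (runP (stP e Pl)).comp (uL.pair (bndP uN)) us
  have h5 : PrimrecPred fun p : (ℕ × List Bool) × ℕ =>
      val p.1.2 ∈ (runE (st e Pl) (dec p.2.unpair.2.unpair.1).2
        (bnd (dec p.2.unpair.2.unpair.1).1) p.2.unpair.2.unpair.2).2 :=
    memP (valP.comp (snd.comp fst)) (snd.comp h4)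
  exact h1.and (h2.and (h3.and h5))

end

/-- The projection of a primitive recursive relation is r.e. -/
theorem re_exists {α : Type*} [Primcodable α] {R : α → ℕ → Prop} (hR : PrimrecRel R) :
    REPred fun a => ∃ n, R a n := by
  classical
  have h1 : Primrec₂ fun (a : α) (n : ℕ) => decide (R a n) := hR.decide
  have h2 : Partrec fun a : α => Nat.rfind fun n => Part.some (decide (R a n)) :=
    Partrec.rfind (Computable.partrec (h1.to_comp))
  refine (h2.dom_re).of_eq fun a => ?_
  refine Iff.trans Nat.rfind_dom ?_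
  constructor
  · rintro ⟨n, hn, _⟩
    exact ⟨n, by simpa using hn⟩
  · rintro ⟨n, hn⟩
    exact ⟨n, by simpa using hn, fun _ => trivial⟩

theorem V_re (e : Code) (Pl : List (List Bool)) :
    REPred fun p : ℕ × List Bool => p.2 ∈ V e Pl p.1 :=
  re_exists (matP e Pl)

end Helper49_RK
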