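import Pool.Agent.Helper49_RK.Test

/-!
# The measure of the test and the outcome
-/

namespace Helper49_RK

open MeasureTheory
open Nat.Partrec (Code)
open scoped ENNReal

theorem coin_fiber_le (N u : ℕ) : coin {Z | val (seg Z N) = u} ≤ (1 / 2 : ℝ≥0∞) ^ N := by
  have hsub : {Z : ℕ → Bool | val (seg Z N) = u} ⊆
      Set.pi (Finset.range N) fun i => {decide (u / 2 ^ (N - 1 - i) % 2 = 1)} := by
    intro Z hZ i hi
    have hi' : i < N := by simpa using hi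
    have hZ' : val (seg Z N) = u := hZ
    rw [Set.mem_singleton_iff, ← hZ', show N - 1 - i = N - (i + 1) by omega,
      val_seg_div Z (show i + 1 ≤ N by omega), val_seg_succ]
    cases h : Z i
    · simp [bit]
    · simp [bit, Nat.add_mod]
  refine (measure_mono hsub).trans ?_
  unfold coin
  rw [Measure.infinitePi_pi]
  · have : ∀ b : Bool, (PMF.uniformOfFintype Bool).toMeasure {b} = (1 / 2 : ℝ≥0∞) := by
      intro b
      rw [PMF.toMeasure_apply_singleton _ _ (MeasurableSet.singleton b),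
        PMF.uniformOfFintype_apply]
      simp
    simp only [this, Finset.prod_const, Finset.card_range]
    exact le_rfl
  · intro i _
    exact MeasurableSet.singleton _

section

variable (e : Code) (Pl : List (List Bool))

theorem V_outcome (k i : ℕ) (hi : i.unpair.2 < 2 ^ i.unpair.1) :
    ∃ (N : ℕ) (U : List ℕ), i.unpair.1 ≤ N ∧ U.length * 2 ^ (k + i + 1) ≤ 2 ^ N ∧
      (∀ σ : List Bool, (∃ n, n.unpair.1 = i ∧ Mat e Pl (k, σ) n) ↔ σ.length = N ∧ val σ ∈ U) ∧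
      ∃ a < 2 ^ N, a / 2 ^ (N - i.unpair.1) = i.unpair.2 ∧ ∀ z < 2 ^ N, z ∈ U ∨
        ∃ j ≤ N, ∀ t, ¬ st e Pl t (tri j (z / 2 ^ (N - j)) (a / 2 ^ (N - j))) := by
  classical
  obtain ⟨c, hc⟩ := exists_firstC Pl.length (i.unpair.1, i.unpair.2, k + i + 1) hi
  have hC : Cert i.unpair.1 i.unpair.2 Pl.length (k + i + 1) (dec c).1 (dec c).2 := hc.1
  obtain ⟨U, hU1, hU2, hU3⟩ := run_outcome (width_st e Pl) hC
  refine ⟨(dec c).1, U, hC.1, hU1, fun σ => ?_, hU3⟩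
  constructor
  · rintro ⟨n, rfl, h1, h2, h3, h4⟩
    have h5 : n.unpair.2.unpair.1 = c := h2.unique hc
    rw [h5] at h3 h4
    exact ⟨h3.symm, (hU2 _).1 ⟨_, h4⟩⟩
  · rintro ⟨h1, h2⟩
    obtain ⟨s, hs⟩ := (hU2 _).2 h2
    refine ⟨Nat.pair i (Nat.pair c s), by simp, ?_⟩
    unfold Mat
    simp only [Nat.unpair_pair]
    exact ⟨hi, hc, h1.symm, hs⟩

theorem coin_V_le (k : ℕ) : coin (cyl (V e Pl k)) ≤ (1 / 2 : ℝ≥0∞) ^ k := by
  classical
  set S : ℕ → Set (ℕ → Bool) :=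
    fun i => {Z | ∃ l n, n.unpair.1 = i ∧ Mat e Pl (k, seg Z l) n} with hS
  have h1 : cyl (V e Pl k) ⊆ ⋃ i, S i := by
    rintro Z ⟨l, n, hn⟩
    exact Set.mem_iUnion.2 ⟨n.unpair.1, l, n, rfl, hn⟩
  have h2 : ∀ i, coin (S i) ≤ (1 / 2 : ℝ≥0∞) ^ (k + 1) * (1 / 2 : ℝ≥0∞) ^ i := by
    intro i
    rw [← pow_add, show k + 1 + i = k + i + 1 by omega]
    by_cases hi : i.unpair.2 < 2 ^ i.unpair.1
    · obtain ⟨N, U, hN, hlen, hσ, _⟩ := V_outcome e Pl k i hi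
      have h3 : S i ⊆ ⋃ u ∈ U.toFinset, {Z | val (seg Z N) = u} := by
        rintro Z ⟨l, n, hn⟩
        obtain ⟨h4, h5⟩ := (hσ (seg Z l)).1 ⟨n, hn⟩
        rw [length_seg] at h4
        subst h4
        simp only [Set.mem_iUnion]
        exact ⟨_, List.mem_toFinset.2 h5, rfl⟩
      calc coin (S i) ≤ coin (⋃ u ∈ U.toFinset, {Z | val (seg Z N) = u}) := measure_mono h3
        _ ≤ ∑ u ∈ U.toFinset, coin {Z | val (seg Z N) = u} := measure_biUnion_finset_le _ _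
        _ ≤ ∑ u ∈ U.toFinset, (1 / 2 : ℝ≥0∞) ^ N :=
            Finset.sum_le_sum fun u _ => coin_fiber_le N u
        _ = U.toFinset.card * (1 / 2 : ℝ≥0∞) ^ N := by rw [Finset.sum_const, nsmul_eq_mul]
        _ ≤ U.length * (1 / 2 : ℝ≥0∞) ^ N := by
            gcongr
            exact_mod_cast List.toFinset_card_le _
        _ ≤ (1 / 2 : ℝ≥0∞) ^ (k + i + 1) := by
            have h4 : (U.length : ℝ≥0∞) * 2 ^ (k + i + 1) ≤ 2 ^ N := by exact_mod_cast hlen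
            have h5 : ∀ n : ℕ, (2 : ℝ≥0∞) ^ n * 2⁻¹ ^ n = 1 := fun n => by
              rw [← mul_pow, ENNReal.mul_inv_cancel (by norm_num) (by norm_num), one_pow]
            rw [one_div]
            calc (U.length : ℝ≥0∞) * 2⁻¹ ^ N
                = (U.length : ℝ≥0∞) * (2 ^ (k + i + 1) * 2⁻¹ ^ (k + i + 1)) * 2⁻¹ ^ N := by
                  rw [h5, mul_one]
              _ = ((U.length : ℝ≥0∞) * 2 ^ (k + i + 1)) * 2⁻¹ ^ N * 2⁻¹ ^ (k + i + 1) := by ring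
              _ ≤ 2 ^ N * 2⁻¹ ^ N * 2⁻¹ ^ (k + i + 1) := by gcongr
              _ = 2⁻¹ ^ (k + i + 1) := by rw [h5, one_mul]
    · have h3 : S i = ∅ := by
        rw [Set.eq_empty_iff_forall_notMem]
        rintro Z ⟨l, n, rfl, hn⟩
        exact hi hn.1
      rw [h3]
      simp
  calc coin (cyl (V e Pl k)) ≤ coin (⋃ i, S i) := measure_mono h1
    _ ≤ ∑' i, coin (S i) := measure_iUnion_le _
    _ ≤ ∑' i, (1 / 2 : ℝ≥0∞) ^ (k + 1) * (1 / 2 : ℝ≥0∞) ^ i := ENNReal.tsum_le_tsum h2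
    _ = (1 / 2 : ℝ≥0∞) ^ k := by
        rw [ENNReal.tsum_mul_left, ENNReal.tsum_geometric, pow_succ, mul_assoc]
        have : (1 / 2 : ℝ≥0∞) * (1 - 1 / 2)⁻¹ = 1 := by
          rw [one_div, ENNReal.one_sub_inv_two, inv_inv]
          exact ENNReal.inv_mul_cancel (by norm_num) (by norm_num)
        rw [this, mul_one]

theorem V_test : IsMLTest (V e Pl) := ⟨V_re e Pl, coin_V_le e Pl⟩

/-- The extension lemma. -/
theorem exists_ext (k m ρ : ℕ) (hρ : ρ < 2 ^ m) : ∃ N, m ≤ N ∧ ∃ a < 2 ^ N,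
    a / 2 ^ (N - m) = ρ ∧ ∀ Z : ℕ → Bool, Z ∉ cyl (V e Pl k) →
      ∃ j ≤ N, ∀ t, ¬ st e Pl t (tri j (val (seg Z j)) (a / 2 ^ (N - j))) := by
  obtain ⟨N, U, hN, _, hσ, a, ha, haρ, hz⟩ := V_outcome e Pl k (Nat.pair m ρ) (by simpa using hρ)
  simp only [Nat.unpair_pair] at hN haρ
  refine ⟨N, hN, a, ha, haρ, fun Z hZ => ?_⟩
  rcases hz (val (seg Z N)) (val_seg_lt Z N) with h | ⟨j, hj, h⟩
  · exfalso
    obtain ⟨n, _, hn⟩ := (hσ (seg Z N)).2 ⟨length_seg Z N, h⟩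
    exact hZ ⟨N, n, hn⟩
  · refine ⟨j, hj, fun t => ?_⟩
    have := h t
    rwa [val_seg_div Z hj] at this

end

end Helper49_RK
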