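import Pool.Agent.Helper49_RK.Climb

/-!
# Finite winning certificates
-/

open Finset

namespace Helper49_RK

/-- The code of the triple `(j, z, a)`. -/
def tri (j z a : ℕ) : ℕ := Nat.pair j (Nat.pair z a)

/-- A bound on the codes of all triples that matter for leaf level `N`. -/
def bnd (N : ℕ) : ℕ := 2 ^ (4 * (N + 1))

/-- The list of all elements of `R` with the same level and host as `x`. -/
def sameKey (x : ℕ) (R : List ℕ) : List ℕ :=
  R.filter fun y => y.unpair.1 = x.unpair.1 ∧ y.unpair.2.unpair.1 = x.unpair.2.unpair.1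

/-- The path closure of a finite history. -/
def closure (R : List ℕ) : Rel where
  r j z a := a < 2 ^ j ∧ ∀ i ≤ j, tri i (z / 2 ^ (j - i)) (a / 2 ^ (j - i)) ∈ R
  lt h := h.1
  down := by
    intro j z a h
    refine ⟨?_, fun i hi => ?_⟩
    · have := h.1; rw [pow_succ] at this; omega
    · have h2 := h.2 i (by omega)
      rw [Nat.div_div_eq_div_mul, Nat.div_div_eq_div_mul, ← pow_succ']
      rwa [show j + 1 - i = j - i + 1 by omega] at h2

theorem closure_mono {R R' : List ℕ} (h : ∀ x ∈ R, x ∈ R') : closure R ≤ closure R' :=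
  fun _ _ _ hr => ⟨hr.1, fun i hi => h _ (hr.2 i hi)⟩

/-- The coder fails at the history `R` with killed leaves `U`. -/
def Fail (N m ρ : ℕ) (R U : List ℕ) : Prop :=
  ∃ a < 2 ^ N, a / 2 ^ (N - m) = ρ ∧ ∀ z < 2 ^ N, z ∈ U ∨
    ∃ i < N + 1, ¬ tri i (z / 2 ^ (N - i)) (a / 2 ^ (N - i)) ∈ R

/-- The local condition on an entry `e` of a certificate. -/
def EntryOK (m ρ w q N : ℕ) (L : List (List ℕ × List ℕ)) (e : List ℕ × List ℕ) : Prop :=
  Fail N m ρ e.1 e.2 ∧ e.2.length * 2 ^ q ≤ 2 ^ N ∧
    ∀ x < bnd N, x ∈ e.1 ∨ w ≤ (sameKey x e.1).length ∨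
      ∃ e' ∈ L, e'.1 = x :: e.1 ∧ ∀ u ∈ e.2, u ∈ e'.2

/-- A winning certificate for Player. -/
def Cert (m ρ w q N : ℕ) (L : List (List ℕ × List ℕ)) : Prop :=
  m ≤ N ∧ (∃ e ∈ L, e.1 = []) ∧ ∀ e ∈ L, EntryOK m ρ w q N L e

inductive Win (m ρ w q N : ℕ) : List ℕ → List ℕ → Prop
  | intro {R U : List ℕ} (U' : List ℕ) : (∀ u ∈ U, u ∈ U') → U'.length * 2 ^ q ≤ 2 ^ N →
      Fail N m ρ R U' →
      (∀ x < bnd N, x ∉ R → (sameKey x R).length < w → Win m ρ w q N (x :: R) U') →
      Win m ρ w q N R U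

theorem EntryOK.mono {m ρ w q N : ℕ} {L L' : List (List ℕ × List ℕ)} {e : List ℕ × List ℕ}
    (hL : ∀ e ∈ L, e ∈ L') (h : EntryOK m ρ w q N L e) : EntryOK m ρ w q N L' e := by
  refine ⟨h.1, h.2.1, fun x hx => ?_⟩
  rcases h.2.2 x hx with h1 | h1 | ⟨e', he', h2⟩
  · exact Or.inl h1
  · exact Or.inr (Or.inl h1)
  · exact Or.inr (Or.inr ⟨e', hL _ he', h2⟩)

theorem Win.exists_list {m ρ w q N : ℕ} {R U : List ℕ} (h : Win m ρ w q N R U) :
    ∃ L : List (List ℕ × List ℕ), (∃ e ∈ L, e.1 = R ∧ ∀ u ∈ U, u ∈ e.2) ∧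
      ∀ e ∈ L, EntryOK m ρ w q N L e := by
  classical
  induction h with
  | @intro R U U' hU hc hF _ ih =>
    choose! LL hLL1 hLL2 using ih
    set good : ℕ → Prop := fun x => x ∉ R ∧ (sameKey x R).length < w with hgood
    set L : List (List ℕ × List ℕ) :=
      (R, U') :: (((List.range (bnd N)).filter fun x => good x).flatMap LL) with hL
    have hmem : ∀ x < bnd N, good x → ∀ e ∈ LL x, e ∈ L := by
      intro x hx hg e he
      rw [hL]
      apply List.mem_cons_of_mem
      rw [List.mem_flatMap]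
      refine ⟨x, ?_, he⟩
      rw [List.mem_filter]
      exact ⟨List.mem_range.2 hx, by simpa using hg⟩
    refine ⟨L, ⟨(R, U'), by simp [hL], rfl, hU⟩, ?_⟩
    intro e he
    rw [hL, List.mem_cons] at he
    rcases he with rfl | he
    · refine ⟨hF, hc, fun x hx => ?_⟩
      by_cases h1 : x ∈ R
      · exact Or.inl h1
      by_cases h2 : w ≤ (sameKey x R).length
      · exact Or.inr (Or.inl h2)
      right; right
      push Not at h2
      obtain ⟨e', he', h3, h4⟩ := hLL1 x hx h1 h2
      exact ⟨e', hmem x hx ⟨h1, h2⟩ e' he', h3, h4⟩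
    · rw [List.mem_flatMap] at he
      obtain ⟨x, hx, hex⟩ := he
      rw [List.mem_filter] at hx
      have hx1 := List.mem_range.1 hx.1
      have hx2 : good x := by simpa using hx.2
      exact (hLL2 x hx1 hx2.1 hx2.2 e hex).mono (hmem x hx1 hx2)

/-- Legality of a history. -/
def Leg (w : ℕ) (R : List ℕ) : Prop := R.Nodup ∧ ∀ x, (sameKey x R).length ≤ w

theorem Leg.nil (w : ℕ) : Leg w [] := ⟨List.nodup_nil, fun x => by simp [sameKey]⟩

theorem Leg.cons {w : ℕ} {R : List ℕ} {x : ℕ} (h : Leg w R) (hx : x ∉ R)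
    (hk : (sameKey x R).length < w) : Leg w (x :: R) := by
  refine ⟨List.nodup_cons.2 ⟨hx, h.1⟩, fun y => ?_⟩
  unfold sameKey
  by_cases hxy : x.unpair.1 = y.unpair.1 ∧ x.unpair.2.unpair.1 = y.unpair.2.unpair.1
  · rw [List.filter_cons_of_pos (by simpa using hxy), List.length_cons]
    have : (R.filter fun z => decide (z.unpair.1 = y.unpair.1 ∧
        z.unpair.2.unpair.1 = y.unpair.2.unpair.1)) = sameKey x R := by
      unfold sameKey
      rw [hxy.1, hxy.2]
    rw [this]
    omega
  · rw [List.filter_cons_of_neg (by simpa using hxy)]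
    exact h.2 y

theorem Leg.card_users {w : ℕ} {R : List ℕ} (h : Leg w R) (m j ρ q : ℕ) :
    (users m j ρ (closure R) q).card ≤ w := by
  classical
  have h1 : (users m j ρ (closure R) q).image (fun a => tri j q a) ⊆
      (sameKey (tri j q 0) R).toFinset := by
    intro x hx
    rw [mem_image] at hx
    obtain ⟨a, ha, rfl⟩ := hx
    rw [mem_users] at ha
    have h2 := ha.1.2 j le_rfl
    rw [Nat.sub_self, pow_zero, Nat.div_one, Nat.div_one] at h2
    rw [List.mem_toFinset]
    unfold sameKey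
    rw [List.mem_filter]
    exact ⟨h2, by simp [tri]⟩
  have h2 : ((users m j ρ (closure R) q).image (fun a => tri j q a)).card =
      (users m j ρ (closure R) q).card := by
    apply card_image_of_injective
    intro a b hab
    simpa [tri] using hab
  rw [← h2]
  exact (card_le_card h1).trans ((List.toFinset_card_le _).trans (h.2 _))

theorem length_lt_bnd {b : ℕ} {R : List ℕ} {x : ℕ} (hR : ∀ y ∈ R, y < b) (hnd : R.Nodup)
    (hx : x < b) (hxR : x ∉ R) : R.length < b := by
  classical
  have h1 : (x :: R).toFinset ⊆ range b := by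
    intro y hy
    rw [List.mem_toFinset, List.mem_cons] at hy
    rw [mem_range]
    rcases hy with rfl | hy
    · exact hx
    · exact hR y hy
  have h2 := card_le_card h1
  rw [List.toFinset_card_of_nodup (List.nodup_cons.2 ⟨hxR, hnd⟩), card_range,
    List.length_cons] at h2
  omega

theorem fail_of_goal {m ρ w N : ℕ} {R : List ℕ} {U : Finset ℕ}
    (hleg : Leg w R) (hG : Goal N w m N ρ (range (2 ^ N)) (closure R) U) :
    Fail N m ρ R U.toList := by
  rcases hG with ⟨j, _, _, P, _, hcard⟩ | ⟨a, ha, haρ, hno⟩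
  · have := hleg.card_users m j ρ (P / 2 ^ (N - j))
    omega
  · refine ⟨a, ha, haρ, fun z hz => ?_⟩
    by_cases hzU : z ∈ U
    · left; exact mem_toList.2 hzU
    · right
      have h1 := hno z (mem_range.2 hz) ⟨z, by simp, hzU⟩
      by_contra hcon
      push Not at hcon
      exact h1 ⟨ha, fun i hi => hcon i (by omega)⟩

theorem Force.to_win {m ρ w q N : ℕ} : ∀ (k : ℕ) (R : List ℕ), (∀ x ∈ R, x < bnd N) →
    Leg w R → bnd N - R.length = k → ∀ (b : ℝ) (U : Finset ℕ),
    (∀ Q, closure R ≤ Q → Force N (Goal N w m N ρ (range (2 ^ N))) b Q U) →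
    (U.card : ℝ) / 2 ^ N + b ≤ 1 / 2 ^ q → Win m ρ w q N R U.toList := by
  classical
  intro k
  induction k using Nat.strong_induction_on with
  | _ k ihk =>
    intro R hR hleg hk b U hf hb
    have inner : ∀ (b : ℝ) (Q : Rel) (U : Finset ℕ),
        Force N (Goal N w m N ρ (range (2 ^ N))) b Q U → Q = closure R →
        (∀ Q, closure R ≤ Q → Force N (Goal N w m N ρ (range (2 ^ N))) b Q U) →
        (U.card : ℝ) / 2 ^ N + b ≤ 1 / 2 ^ q → Win m ρ w q N R U.toList := by
      intro b Q U h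
      induction h with
      | @done b Q U hb0 hG =>
        intro hQ hA hbud
        subst hQ
        refine .intro U.toList (fun u h => h) ?_ (fail_of_goal hleg hG) ?_
        · rw [length_toList]
          have h1 : (U.card : ℝ) / 2 ^ N ≤ 1 / 2 ^ q := by linarith
          rw [div_le_div_iff₀ (by positivity) (by positivity), one_mul] at h1
          exact_mod_cast h1
        · intro x hx hxR hkey
          have hlen := length_lt_bnd hR hleg.1 hx hxR
          refine ihk (bnd N - (x :: R).length) ?_ (x :: R) ?_ (hleg.cons hxR hkey) rfl b U ?_ hbud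
          · rw [List.length_cons]; omega
          · intro y hy
            rw [List.mem_cons] at hy
            rcases hy with rfl | hy
            · exact hx
            · exact hR y hy
          · intro Q hQ
            exact hA Q (Rel.le_trans (closure_mono fun y hy => List.mem_cons_of_mem _ hy) hQ)
      | @kill b b' Q U U' hU hc hf' ih =>
        intro hQ hA hbud
        subst hQ
        have h1 := ih (closure R) (Rel.le_refl _) rfl hf' (by
          have : ((U'.card : ℝ) - U.card) / 2 ^ N = U'.card / 2 ^ N - U.card / 2 ^ N := sub_div _ _ _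
          linarith)
        cases h1 with
        | intro U'' h2 h3 h4 h5 =>
          exact .intro U'' (fun u hu => h2 u (mem_toList.2 (hU (mem_toList.1 hu)))) h3 h4 h5
    exact inner b (closure R) U (hf _ (Rel.le_refl _)) rfl hf hb

theorem exists_cert (m ρ w q : ℕ) (hρ : ρ < 2 ^ m) :
    ∃ (N : ℕ) (L : List (List ℕ × List ℕ)), Cert m ρ w q N L := by
  obtain ⟨G, hG, hF⟩ := PW_all w m (2 ^ m) (1 / 2 ^ q) (by positivity)
  have hS : (shadow G m (range (2 ^ G))).card ≤ 2 ^ m := by
    have : shadow G m (range (2 ^ G)) ⊆ range (2 ^ m) := by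
      intro x hx
      obtain ⟨P, hP, rfl⟩ := mem_shadow.1 hx
      rw [mem_range] at hP ⊢
      rw [Nat.div_lt_iff_lt_mul (by positivity), ← pow_add, Nat.add_sub_cancel' hG]
      exact hP
    simpa using card_le_card this
  have h1 := hF G le_rfl G le_rfl ρ (range (2 ^ G)) hρ hS
  have h2 : Win m ρ w q G [] (∅ : Finset ℕ).toList := by
    refine Force.to_win _ [] (by simp) (Leg.nil w) rfl (1 / 2 ^ q) ∅ (fun Q _ => h1 Q ∅) ?_
    simp
  obtain ⟨L, ⟨e, he, he1, _⟩, hL⟩ := h2.exists_list
  exact ⟨G, L, hG, ⟨e, he, he1⟩, hL⟩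

end Helper49_RK
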