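import Pool.Agent.Helper49_RK.Jump

/-!
# The recursion: Player wins for every width
-/

open Finset

namespace Helper49_RK

theorem climb {w : ℕ} (ih : PW w) (m K : ℕ) (η : ℝ) (hη : 0 < η) (r : ℕ) :
    ∀ n, m ≤ n → ∃ G₂, n ≤ G₂ ∧ ∀ g, G₂ ≤ g → ∀ N, g ≤ N → ∀ (ρ : ℕ) (S : Finset ℕ),
      ρ < 2 ^ m → (shadow g m S).card ≤ K → ∀ Q U,
        Force N (fun Q' U' => Goal N (w + 1) m g ρ S Q' U' ∨
          (r : ℝ) / ((w + 1) * 2 ^ m) ≤ T m g n ρ S Q') (r * η) Q U := by
  induction r with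
  | zero =>
    intro n _
    refine ⟨n, le_rfl, fun g _ N _ ρ S _ _ Q U => .done (by simp) (Or.inr ?_)⟩
    simpa using T_nonneg _ _ _ _ _ _
  | succ r ihr =>
    intro n hmn
    have hj := fun n (hn : m ≤ n) => jump ih m K n hn (η / 2) (by positivity)
    choose! next hnext1 hnext2 using hj
    set lev : ℕ → ℕ := fun l => next^[l] n with hlev
    have hlevm : ∀ l, m ≤ lev l := by
      intro l
      induction l with
      | zero => simpa [hlev] using hmn
      | succ l ihl =>
        have : lev (l + 1) = next (lev l) := Function.iterate_succ_apply' _ _ _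
        rw [this]
        exact ihl.trans (hnext1 _ ihl)
    have hlevs : ∀ l, lev l ≤ lev (l + 1) := by
      intro l
      have : lev (l + 1) = next (lev l) := Function.iterate_succ_apply' _ _ _
      rw [this]
      exact hnext1 _ (hlevm l)
    have hmono : Monotone lev := monotone_nat_of_le_succ hlevs
    obtain ⟨M, hM⟩ := exists_nat_gt ((K / 2 ^ m : ℝ) / (η / 2))
    have hM' : (K / 2 ^ m : ℝ) < M * (η / 2) := by
      rwa [div_lt_iff₀ (by positivity)] at hM
    obtain ⟨G₂, hG₂, hF⟩ := ihr (lev M) (hlevm M)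
    refine ⟨G₂, (hmono (Nat.zero_le M)).trans hG₂, ?_⟩
    intro g hg N hN ρ S hρ hK Q U
    have h1 := hF g hg N hN ρ S hρ hK Q U
    have h2 := h1.bind (H := fun Q' U' => Goal N (w + 1) m g ρ S Q' U' ∨
          ((r + 1 : ℕ) : ℝ) / ((w + 1) * 2 ^ m) ≤ T m g n ρ S Q') (c := η) ?_
    · refine h2.mono (le_of_eq ?_)
      push_cast; ring
    intro Q' U' hQ' hU' hG
    by_cases hG2 : Goal N (w + 1) m g ρ S Q' U'
    · exact .done hη.le (Or.inl hG2)
    have hTM := hG.resolve_left hG2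
    have hpig : ∃ l < M, T m g (lev l) ρ S Q' - T m g (lev (l + 1)) ρ S Q' ≤ η / 2 := by
      by_contra hcon
      push Not at hcon
      have hsum : ∀ k ≤ M, k * (η / 2) ≤ T m g (lev 0) ρ S Q' - T m g (lev k) ρ S Q' := by
        intro k
        induction k with
        | zero => intro _; simp
        | succ k ihk =>
          intro hk
          have h3 := ihk (by omega)
          have h4 := hcon k (by omega)
          push_cast
          linarith
      have h3 := hsum M le_rfl
      have h4 : T m g (lev 0) ρ S Q' ≤ K / 2 ^ m :=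
        T_le (hlevm 0) ((hmono (Nat.zero_le M)).trans (hG₂.trans hg)) hK
      have h5 := T_nonneg m g (lev M) ρ S Q'
      linarith
    obtain ⟨l, hl, hlT⟩ := hpig
    have hls : lev (l + 1) = next (lev l) := Function.iterate_succ_apply' _ _ _
    have hlg : lev (l + 1) ≤ g := (hmono (by omega : l + 1 ≤ M)).trans (hG₂.trans hg)
    have h3 := hnext2 (lev l) (hlevm l) (lev (l + 1)) (le_of_eq hls.symm) g hlg N hN ρ S hρ hK Q' U'
    have h4 := h3.bind (H := fun Q' U' => Goal N (w + 1) m g ρ S Q' U' ∨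
          ((r + 1 : ℕ) : ℝ) / ((w + 1) * 2 ^ m) ≤ T m g n ρ S Q') (c := 0) ?_
    · exact h4.mono (by linarith)
    intro Q'' U'' hQ'' hU'' hG''
    refine .done le_rfl ?_
    rcases hG'' with hG'' | hG''
    · exact Or.inl hG''
    right
    have h5 : T m g (lev l) ρ S Q'' ≤ T m g n ρ S Q'' :=
      T_anti (n := n) hmn (hmono (Nat.zero_le l)) ((hlevs l).trans hlg)
    have h6 : T m g (lev M) ρ S Q' ≤ T m g (lev l) ρ S Q' :=
      T_anti (hlevm l) (hmono hl.le) (hG₂.trans hg)
    have h7 : ((r + 1 : ℕ) : ℝ) / ((w + 1) * 2 ^ m) =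
        (r : ℝ) / ((w + 1) * 2 ^ m) + 1 / ((w + 1) * 2 ^ m) := by
      push_cast; rw [add_div]
    rw [h7]
    linarith

theorem PW_succ {w : ℕ} (ih : PW w) : PW (w + 1) := by
  intro m K ε hε
  set r : ℕ := (w + 1) * K + 1 with hr
  set η : ℝ := ε / r with hη
  have hrpos : (0 : ℝ) < r := by rw [hr]; positivity
  have hηpos : 0 < η := by positivity
  obtain ⟨G₂, hG₂, hF⟩ := climb ih m K η hηpos r m le_rfl
  refine ⟨G₂, hG₂, fun g hg N hN ρ S hρ hK Q U => ?_⟩
  have h1 := hF g hg N hN ρ S hρ hK Q U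
  have h2 := h1.bind (H := Goal N (w + 1) m g ρ S) (c := 0) ?_
  · refine h2.mono (le_of_eq ?_)
    rw [hη, mul_div_cancel₀ _ hrpos.ne']; ring
  intro Q' U' _ _ hG
  refine .done le_rfl (hG.resolve_right ?_)
  intro hT
  have h3 : T m g m ρ S Q' ≤ K / 2 ^ m := T_le le_rfl (hG₂.trans hg) hK
  have h4 := hT.trans h3
  rw [div_le_div_iff₀ (by positivity) (by positivity), hr] at h4
  push_cast at h4
  have h5 : (0 : ℝ) < 2 ^ m := by positivity
  have h6 : ((w + 1) * K + 1 : ℝ) * 2 ^ m ≤ ((w + 1) * K) * 2 ^ m := by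
    calc ((w + 1) * K + 1 : ℝ) * 2 ^ m ≤ K * ((w + 1) * 2 ^ m) := h4
      _ = ((w + 1) * K) * 2 ^ m := by ring
  have h7 := le_of_mul_le_mul_right h6 h5
  linarith

theorem PW_all (w : ℕ) : PW w := by
  induction w with
  | zero => exact PW_zero
  | succ w ih => exact PW_succ ih

end Helper49_RK
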