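import Pool.Agent.Helper49_RK.Cert

/-!
# Primitive recursiveness of certificates and of the certified strategy
-/

namespace Helper49_RK

open Primrec

section Prim

variable {α β : Type*} [Primcodable α] [Primcodable β]

theorem bexL {R : α → β → Prop} (h : PrimrecRel R) {f : β → List α} (hf : Primrec f) :
    PrimrecPred fun b => ∃ x ∈ f b, R x b :=
  h.exists_mem_list.comp hf Primrec.id

theorem ballL {R : α → β → Prop} (h : PrimrecRel R) {f : β → List α} (hf : Primrec f) :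
    PrimrecPred fun b => ∀ x ∈ f b, R x b :=
  h.forall_mem_list.comp hf Primrec.id

theorem bexN {R : ℕ → β → Prop} (h : PrimrecRel R) {f : β → ℕ} (hf : Primrec f) :
    PrimrecPred fun b => ∃ x < f b, R x b :=
  (bexL h (list_range.comp hf)).of_eq (by simp)

theorem ballN {R : ℕ → β → Prop} (h : PrimrecRel R) {f : β → ℕ} (hf : Primrec f) :
    PrimrecPred fun b => ∀ x < f b, R x b :=
  (ballL h (list_range.comp hf)).of_eq (by simp)

theorem memP {f : β → α} {g : β → List α} (hf : Primrec f) (hg : Primrec g) :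
    PrimrecPred fun b => f b ∈ g b := by
  have h : PrimrecRel fun (x : α) (b : β) => x = f b :=
    Primrec.eq.comp fst (hf.comp snd)
  exact (bexL h hg).of_eq (by simp)

theorem pow2P {f : β → ℕ} (hf : Primrec f) : Primrec fun b => 2 ^ f b :=
  (Primrec₂.unpaired'.1 Nat.Primrec.pow).comp (Primrec.const 2) hf

theorem ancP {f g h : β → ℕ} (hf : Primrec f) (hg : Primrec g) (hh : Primrec h) :
    Primrec fun b => f b / 2 ^ (g b - h b) :=
  nat_div.comp hf (pow2P (nat_sub.comp hg hh))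

theorem triP {f g h : β → ℕ} (hf : Primrec f) (hg : Primrec g) (hh : Primrec h) :
    Primrec fun b => tri (f b) (g b) (h b) :=
  Primrec₂.natPair.comp hf (Primrec₂.natPair.comp hg hh)

theorem bndP {f : β → ℕ} (hf : Primrec f) : Primrec fun b => bnd (f b) :=
  pow2P (nat_mul.comp (Primrec.const 4) (succ.comp hf))

/-- Parameters `(N, m, ρ, R, U)`. -/
abbrev FCtx := ℕ × ℕ × ℕ × List ℕ × List ℕ

theorem failP : PrimrecPred fun c : FCtx => Fail c.1 c.2.1 c.2.2.1 c.2.2.2.1 c.2.2.2.2 := by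
  have cN : Primrec fun c : FCtx => c.1 := fst
  have cm : Primrec fun c : FCtx => c.2.1 := fst.comp snd
  have cρ : Primrec fun c : FCtx => c.2.2.1 := fst.comp (snd.comp snd)
  have cR : Primrec fun c : FCtx => c.2.2.2.1 := fst.comp (snd.comp (snd.comp snd))
  have cU : Primrec fun c : FCtx => c.2.2.2.2 := snd.comp (snd.comp (snd.comp snd))
  -- innermost
  have h1 : PrimrecRel fun (i : ℕ) (y : ℕ × ℕ × FCtx) =>
      ¬ tri i (y.1 / 2 ^ (y.2.2.1 - i)) (y.2.1 / 2 ^ (y.2.2.1 - i)) ∈ y.2.2.2.2.2.1 := by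
    have yz : Primrec fun p : ℕ × (ℕ × ℕ × FCtx) => p.2.1 := fst.comp snd
    have ya : Primrec fun p : ℕ × (ℕ × ℕ × FCtx) => p.2.2.1 := fst.comp (snd.comp snd)
    have yc : Primrec fun p : ℕ × (ℕ × ℕ × FCtx) => p.2.2.2 := snd.comp (snd.comp snd)
    exact (memP (triP fst (ancP yz (cN.comp yc) fst) (ancP ya (cN.comp yc) fst))
      (cR.comp yc)).not
  have h2 : PrimrecPred fun y : ℕ × ℕ × FCtx => ∃ i < y.2.2.1 + 1,
      ¬ tri i (y.1 / 2 ^ (y.2.2.1 - i)) (y.2.1 / 2 ^ (y.2.2.1 - i)) ∈ y.2.2.2.2.2.1 :=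
    bexN h1 (succ.comp (cN.comp (snd.comp snd)))
  have h3 : PrimrecRel fun (z : ℕ) (y : ℕ × FCtx) => z ∈ y.2.2.2.2.2 ∨ ∃ i < y.2.1 + 1,
      ¬ tri i (z / 2 ^ (y.2.1 - i)) (y.1 / 2 ^ (y.2.1 - i)) ∈ y.2.2.2.2.1 :=
    (memP fst (cU.comp (snd.comp snd))).or h2
  have h4 : PrimrecPred fun y : ℕ × FCtx => ∀ z < 2 ^ y.2.1, z ∈ y.2.2.2.2.2 ∨
      ∃ i < y.2.1 + 1, ¬ tri i (z / 2 ^ (y.2.1 - i)) (y.1 / 2 ^ (y.2.1 - i)) ∈ y.2.2.2.2.1 :=
    ballN h3 (pow2P (cN.comp snd))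
  have h5 : PrimrecRel fun (a : ℕ) (c : FCtx) => a / 2 ^ (c.1 - c.2.1) = c.2.2.1 ∧
      ∀ z < 2 ^ c.1, z ∈ c.2.2.2.2 ∨
      ∃ i < c.1 + 1, ¬ tri i (z / 2 ^ (c.1 - i)) (a / 2 ^ (c.1 - i)) ∈ c.2.2.2.1 :=
    (Primrec.eq.comp (ancP fst (cN.comp snd) (cm.comp snd)) (cρ.comp snd)).and h4
  exact bexN h5 (pow2P cN)

theorem sameKeyP : Primrec₂ fun (R : List ℕ) (x : ℕ) => sameKey x R := by
  have h : PrimrecRel fun (y x : ℕ) =>
      y.unpair.1 = x.unpair.1 ∧ y.unpair.2.unpair.1 = x.unpair.2.unpair.1 :=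
    (Primrec.eq.comp (fst.comp (unpair.comp fst)) (fst.comp (unpair.comp snd))).and
      (Primrec.eq.comp (fst.comp (unpair.comp (snd.comp (unpair.comp fst))))
        (fst.comp (unpair.comp (snd.comp (unpair.comp snd)))))
  exact h.listFilter

/-- Entries. -/
abbrev Ent := List ℕ × List ℕ

/-- Parameters `((m, ρ, q), (N, L))`. -/
abbrev PCtx := (ℕ × ℕ × ℕ) × (ℕ × List Ent)

theorem extP : PrimrecRel fun (e' : Ent) (y : ℕ × Ent) =>
    e'.1 = y.1 :: y.2.1 ∧ ∀ u ∈ y.2.2, u ∈ e'.2 := by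
  have h1 : PrimrecRel fun (u : ℕ) (p : Ent × (ℕ × Ent)) => u ∈ p.1.2 :=
    memP fst (snd.comp (fst.comp snd))
  have h2 : PrimrecPred fun p : Ent × (ℕ × Ent) => ∀ u ∈ p.2.2.2, u ∈ p.1.2 :=
    ballL h1 (snd.comp (snd.comp snd))
  have h3 : PrimrecPred fun p : Ent × (ℕ × Ent) => p.1.1 = p.2.1 :: p.2.2.1 :=
    Primrec.eq.comp (fst.comp fst) (list_cons.comp (fst.comp snd) (fst.comp (snd.comp snd)))
  exact h3.and h2

theorem entryP (w : ℕ) : PrimrecRel fun (e : Ent) (c : PCtx) =>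
    EntryOK c.1.1 c.1.2.1 w c.1.2.2 c.2.1 c.2.2 e := by
  have ce : Primrec fun p : Ent × PCtx => p.1 := fst
  have cm : Primrec fun p : Ent × PCtx => p.2.1.1 := fst.comp (fst.comp snd)
  have cρ : Primrec fun p : Ent × PCtx => p.2.1.2.1 := fst.comp (snd.comp (fst.comp snd))
  have cq : Primrec fun p : Ent × PCtx => p.2.1.2.2 := snd.comp (snd.comp (fst.comp snd))
  have cN : Primrec fun p : Ent × PCtx => p.2.2.1 := fst.comp (snd.comp snd)
  have cL : Primrec fun p : Ent × PCtx => p.2.2.2 := snd.comp (snd.comp snd)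
  have h1 : PrimrecPred fun p : Ent × PCtx => Fail p.2.2.1 p.2.1.1 p.2.1.2.1 p.1.1 p.1.2 :=
    failP.comp (cN.pair (cm.pair (cρ.pair ((fst.comp ce).pair (snd.comp ce)))))
  have h2 : PrimrecPred fun p : Ent × PCtx => p.1.2.length * 2 ^ p.2.1.2.2 ≤ 2 ^ p.2.2.1 :=
    nat_le.comp (nat_mul.comp (list_length.comp (snd.comp ce)) (pow2P cq)) (pow2P cN)
  have h3 : PrimrecRel fun (e' : Ent) (y : ℕ × (Ent × PCtx)) =>
      e'.1 = y.1 :: y.2.1.1 ∧ ∀ u ∈ y.2.1.2, u ∈ e'.2 :=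
    extP.comp fst ((fst.comp snd).pair (fst.comp (snd.comp snd)))
  have h4 : PrimrecPred fun y : ℕ × (Ent × PCtx) =>
      ∃ e' ∈ y.2.2.2.2, e'.1 = y.1 :: y.2.1.1 ∧ ∀ u ∈ y.2.1.2, u ∈ e'.2 :=
    bexL h3 (cL.comp snd)
  have h5 : PrimrecRel fun (x : ℕ) (p : Ent × PCtx) => x ∈ p.1.1 ∨
      w ≤ (sameKey x p.1.1).length ∨ ∃ e' ∈ p.2.2.2, e'.1 = x :: p.1.1 ∧ ∀ u ∈ p.1.2, u ∈ e'.2 :=
    (memP fst (fst.comp (ce.comp snd))).or
      ((nat_le.comp (Primrec.const w)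
        (list_length.comp (sameKeyP.comp (fst.comp (ce.comp snd)) fst))).or h4)
  exact h1.and (h2.and (ballN h5 (bndP cN)))

theorem certP (w : ℕ) : PrimrecPred fun c : PCtx => Cert c.1.1 c.1.2.1 w c.1.2.2 c.2.1 c.2.2 := by
  have cm : Primrec fun p : PCtx => p.1.1 := fst.comp fst
  have cN : Primrec fun p : PCtx => p.2.1 := fst.comp snd
  have cL : Primrec fun p : PCtx => p.2.2 := snd.comp snd
  have h1 : PrimrecRel fun (e : Ent) (_ : PCtx) => e.1 = [] :=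
    Primrec.eq.comp (fst.comp fst) (Primrec.const [])
  exact (nat_le.comp cm cN).and ((bexL h1 cL).and (ballL (entryP w) cL))

end Prim

end Helper49_RK
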