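import Mathlib

/-!
# The combinatorial game behind non-`rK`-reducibility to random reals

Nodes of level `j` of the binary tree are the naturals `< 2 ^ j`; the ancestor at level `n` of a
node `P` of level `g ≥ n` is `P / 2 ^ (g - n)`.
-/

open Finset

namespace Helper49_RK

/-- A path-closed relation between nodes of equal level. -/
structure Rel where
  r : ℕ → ℕ → ℕ → Prop
  lt : ∀ {j z a : ℕ}, r j z a → a < 2 ^ j
  down : ∀ {j z a : ℕ}, r (j + 1) z a → r j (z / 2) (a / 2)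

instance : LE Rel := ⟨fun Q Q' => ∀ j z a, Q.r j z a → Q'.r j z a⟩

theorem Rel.le_def {Q Q' : Rel} : Q ≤ Q' ↔ ∀ j z a, Q.r j z a → Q'.r j z a := Iff.rfl

theorem Rel.le_refl (Q : Rel) : Q ≤ Q := fun _ _ _ h => h

theorem Rel.le_trans {Q Q' Q'' : Rel} (h : Q ≤ Q') (h' : Q' ≤ Q'') : Q ≤ Q'' :=
  fun j z a hh => h' j z a (h j z a hh)

theorem Rel.down_iter (Q : Rel) {j z a : ℕ} (k : ℕ) (h : Q.r (j + k) z a) :
    Q.r j (z / 2 ^ k) (a / 2 ^ k) := by
  induction k generalizing z a with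
  | zero => simpa using h
  | succ k ih =>
    have h1 := Q.down (j := j + k) h
    have h2 := ih h1
    rw [Nat.div_div_eq_div_mul, Nat.div_div_eq_div_mul] at h2
    rw [pow_succ']
    exact h2

theorem Rel.anc (Q : Rel) {n g z a : ℕ} (hn : n ≤ g) (h : Q.r g z a) :
    Q.r n (z / 2 ^ (g - n)) (a / 2 ^ (g - n)) := by
  apply Q.down_iter
  rwa [Nat.add_sub_cancel' hn]

theorem div_anc {m n g z : ℕ} (hmn : m ≤ n) (hng : n ≤ g) :
    z / 2 ^ (g - n) / 2 ^ (n - m) = z / 2 ^ (g - m) := by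
  rw [Nat.div_div_eq_div_mul, ← pow_add]
  congr 2
  omega

/-- `Force N G b Q U`: from the relation `Q` and the killed set `U`, Player can force a state in
which `G` holds, killing leaves (of level `N`) of total measure at most `b`. -/
inductive Force (N : ℕ) (G : Rel → Finset ℕ → Prop) : ℝ → Rel → Finset ℕ → Prop
  | done {b : ℝ} {Q : Rel} {U : Finset ℕ} : 0 ≤ b → G Q U → Force N G b Q U
  | kill {b b' : ℝ} {Q : Rel} {U : Finset ℕ} (U' : Finset ℕ) : U ⊆ U' →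
      ((U'.card : ℝ) - U.card) / 2 ^ N + b' ≤ b →
      (∀ Q' : Rel, Q ≤ Q' → Force N G b' Q' U') → Force N G b Q U

theorem Force.mono {N : ℕ} {G : Rel → Finset ℕ → Prop} {b c : ℝ} {Q : Rel} {U : Finset ℕ}
    (h : Force N G b Q U) (hbc : b ≤ c) : Force N G c Q U := by
  cases h with
  | done hb hG => exact .done (hb.trans hbc) hG
  | kill U' hU hc hf => exact .kill U' hU (hc.trans hbc) hf

/-- Sequential composition. -/
theorem Force.bind {N : ℕ} {G H : Rel → Finset ℕ → Prop} {b c : ℝ} {Q : Rel} {U : Finset ℕ}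
    (h : Force N G b Q U)
    (h' : ∀ Q' U', Q ≤ Q' → U ⊆ U' → G Q' U' → Force N H c Q' U') :
    Force N H (b + c) Q U := by
  induction h with
  | @done b Q U hb hG =>
    exact (h' Q U (Rel.le_refl _) subset_rfl hG).mono (by linarith)
  | @kill b b' Q U U' hU hc hf ih =>
    refine .kill (b' := b' + c) U' hU (by linarith) fun Q' hQ => ih Q' hQ ?_
    intro Q'' U'' hQ'' hU'' hG
    exact h' Q'' U'' (Rel.le_trans hQ hQ'') (hU.trans hU'') hG

/-- The descendants at level `N` of a set of nodes of level `g`. -/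
def desc (N g : ℕ) (X : Finset ℕ) : Finset ℕ :=
  X.biUnion fun P => Finset.Ico (P * 2 ^ (N - g)) ((P + 1) * 2 ^ (N - g))

theorem mem_desc {N g : ℕ} {X : Finset ℕ} {z : ℕ} : z ∈ desc N g X ↔ z / 2 ^ (N - g) ∈ X := by
  have hpos : 0 < 2 ^ (N - g) := by positivity
  simp only [desc, mem_biUnion, mem_Ico]
  constructor
  · rintro ⟨P, hP, h1, h2⟩
    have : z / 2 ^ (N - g) = P := by
      apply Nat.div_eq_of_lt_le
      · exact h1
      · exact h2
    rwa [this]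
  · intro h
    refine ⟨_, h, Nat.div_mul_le_self _ _, ?_⟩
    rw [← Nat.div_lt_iff_lt_mul hpos]
    omega

theorem card_desc_le (N g : ℕ) (X : Finset ℕ) : (desc N g X).card ≤ X.card * 2 ^ (N - g) := by
  unfold desc
  refine Finset.card_biUnion_le_card_mul _ _ _ fun P _ => ?_
  rw [Nat.card_Ico, ← Nat.sub_mul]
  simp

theorem card_desc_singleton (N g P : ℕ) : (desc N g {P}).card = 2 ^ (N - g) := by
  unfold desc
  rw [singleton_biUnion, Nat.card_Ico, ← Nat.sub_mul]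
  simp

/-- The shadow at level `n` of a set of level-`g` nodes. -/
def shadow (g n : ℕ) (S : Finset ℕ) : Finset ℕ := S.image fun P => P / 2 ^ (g - n)

theorem mem_shadow {g n : ℕ} {S : Finset ℕ} {q : ℕ} :
    q ∈ shadow g n S ↔ ∃ P ∈ S, P / 2 ^ (g - n) = q := by
  simp [shadow]

/-- A node `P` of level `g` is alive if some leaf of level `N` above it has not been killed. -/
def Alive (N g : ℕ) (U : Finset ℕ) (P : ℕ) : Prop := ∃ z, z / 2 ^ (N - g) = P ∧ z ∉ U

theorem Alive.anc {N g n : ℕ} {U : Finset ℕ} {P : ℕ} (hn : n ≤ g) (hg : g ≤ N)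
    (h : Alive N g U P) : Alive N n U (P / 2 ^ (g - n)) := by
  obtain ⟨z, hz, hzU⟩ := h
  refine ⟨z, ?_, hzU⟩
  rw [← hz, div_anc hn hg]

theorem Alive.mono {N g : ℕ} {U U' : Finset ℕ} {P : ℕ} (hU : U ⊆ U')
    (h : Alive N g U' P) : Alive N g U P := by
  obtain ⟨z, hz, hzU⟩ := h
  exact ⟨z, hz, fun h => hzU (hU h)⟩

theorem Alive.not_mem {N g : ℕ} {U X : Finset ℕ} {P : ℕ} (hX : desc N g X ⊆ U)
    (h : Alive N g U P) : P ∉ X := by
  obtain ⟨z, hz, hzU⟩ := h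
  intro hP
  exact hzU (hX (mem_desc.2 (hz ▸ hP)))

open Classical in
/-- The set of users (in the cell `ρ` of level `m`) of the node `q` of level `j`. -/
noncomputable def users (m j ρ : ℕ) (Q : Rel) (q : ℕ) : Finset ℕ :=
  (range (2 ^ j)).filter fun a => Q.r j q a ∧ a / 2 ^ (j - m) = ρ

theorem mem_users {m j ρ : ℕ} {Q : Rel} {q a : ℕ} :
    a ∈ users m j ρ Q q ↔ Q.r j q a ∧ a / 2 ^ (j - m) = ρ := by
  simp only [users, mem_filter, mem_range]
  exact ⟨fun h => h.2, fun h => ⟨Q.lt h.1, h⟩⟩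

/-- Player's goal for the width `w`, the cell `ρ` of level `m`, the leaf level `g` and the set
`S` of hosts of level `g`: either some node below `S` has more than `w` users in the cell, or some
leaf of the cell has no alive host in `S`. -/
def Goal (N w m g ρ : ℕ) (S : Finset ℕ) (Q : Rel) (U : Finset ℕ) : Prop :=
  (∃ j, m ≤ j ∧ j ≤ g ∧ ∃ P ∈ S, w < (users m j ρ Q (P / 2 ^ (g - j))).card) ∨
  (∃ a, a < 2 ^ g ∧ a / 2 ^ (g - m) = ρ ∧ ∀ P ∈ S, Alive N g U P → ¬ Q.r g P a)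

open Classical in
/-- The touched nodes of level `n`. -/
noncomputable def touched (m g n ρ : ℕ) (S : Finset ℕ) (Q : Rel) : Finset ℕ :=
  (shadow g n S).filter fun q => ∃ a, Q.r n q a ∧ a / 2 ^ (n - m) = ρ

theorem mem_touched {m g n ρ : ℕ} {S : Finset ℕ} {Q : Rel} {q : ℕ} :
    q ∈ touched m g n ρ S Q ↔ (∃ P ∈ S, P / 2 ^ (g - n) = q) ∧
      ∃ a, Q.r n q a ∧ a / 2 ^ (n - m) = ρ := by
  simp only [touched, mem_filter, mem_shadow]

/-- The measure of the touched nodes of level `n`. -/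
noncomputable def T (m g n ρ : ℕ) (S : Finset ℕ) (Q : Rel) : ℝ :=
  ((touched m g n ρ S Q).card : ℝ) / 2 ^ n

theorem T_nonneg (m g n ρ : ℕ) (S : Finset ℕ) (Q : Rel) : 0 ≤ T m g n ρ S Q := by
  unfold T; positivity

theorem T_mono {m g n ρ : ℕ} {S : Finset ℕ} {Q Q' : Rel} (h : Q ≤ Q') :
    T m g n ρ S Q ≤ T m g n ρ S Q' := by
  unfold T
  have : touched m g n ρ S Q ⊆ touched m g n ρ S Q' := by
    intro q hq
    rw [mem_touched] at hq ⊢
    obtain ⟨h1, a, ha, ha'⟩ := hq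
    exact ⟨h1, a, h _ _ _ ha, ha'⟩
  have := card_le_card this
  gcongr

theorem card_le_of_anc {n n' : ℕ} {A B : Finset ℕ} (h : ∀ q ∈ A, q / 2 ^ (n' - n) ∈ B) :
    A.card ≤ B.card * 2 ^ (n' - n) := by
  refine le_trans (card_le_card ?_) (card_desc_le n' n B)
  intro q hq
  exact mem_desc.2 (h q hq)

theorem T_anti {m g n n' ρ : ℕ} {S : Finset ℕ} {Q : Rel} (hm : m ≤ n) (hn : n ≤ n')
    (hg : n' ≤ g) : T m g n' ρ S Q ≤ T m g n ρ S Q := by
  unfold T
  have h : (touched m g n' ρ S Q).card ≤ (touched m g n ρ S Q).card * 2 ^ (n' - n) := by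
    apply card_le_of_anc
    intro q hq
    rw [mem_touched] at hq ⊢
    obtain ⟨⟨P, hP, rfl⟩, a, ha, ha'⟩ := hq
    refine ⟨⟨P, hP, (div_anc hn hg).symm⟩, a / 2 ^ (n' - n), Q.anc hn ha, ?_⟩
    rw [div_anc hm hn, ha']
  have h2 : ((touched m g n' ρ S Q).card : ℝ) ≤
      (touched m g n ρ S Q).card * 2 ^ (n' - n) := by exact_mod_cast h
  rw [div_le_div_iff₀ (by positivity) (by positivity)]
  calc ((touched m g n' ρ S Q).card : ℝ) * 2 ^ n
      ≤ ((touched m g n ρ S Q).card * 2 ^ (n' - n)) * 2 ^ n := by gcongr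
    _ = (touched m g n ρ S Q).card * 2 ^ n' := by
      rw [mul_assoc, ← pow_add, Nat.sub_add_cancel hn]

theorem T_le {m g n ρ K : ℕ} {S : Finset ℕ} {Q : Rel} (hm : m ≤ n) (hg : n ≤ g)
    (hK : (shadow g m S).card ≤ K) : T m g n ρ S Q ≤ K / 2 ^ m := by
  refine le_trans (T_anti le_rfl hm hg) ?_
  unfold T
  have : (touched m g m ρ S Q).card ≤ K := by
    classical
    exact le_trans (card_le_card (fun q hq => mem_shadow.2 (mem_touched.1 hq).1)) hK
  gcongr

/-- Player's winning claim for width `w`. -/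
def PW (w : ℕ) : Prop := ∀ (m K : ℕ) (ε : ℝ), 0 < ε → ∃ G, m ≤ G ∧ ∀ g, G ≤ g → ∀ N, g ≤ N →
  ∀ (ρ : ℕ) (S : Finset ℕ), ρ < 2 ^ m → (shadow g m S).card ≤ K →
    ∀ Q U, Force N (Goal N w m g ρ S) ε Q U

theorem leaf_lt {m g ρ : ℕ} (hg : m ≤ g) (hρ : ρ < 2 ^ m) : ρ * 2 ^ (g - m) < 2 ^ g := by
  calc ρ * 2 ^ (g - m) < 2 ^ m * 2 ^ (g - m) := by gcongr
    _ = 2 ^ g := by rw [← pow_add, Nat.add_sub_cancel' hg]

theorem leaf_div {m g ρ : ℕ} : ρ * 2 ^ (g - m) / 2 ^ (g - m) = ρ :=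
  Nat.mul_div_cancel _ (by positivity)

theorem PW_zero : PW 0 := by
  intro m K ε hε
  refine ⟨m, le_rfl, fun g hg N hN ρ S hρ hK Q U => .done hε.le ?_⟩
  by_cases h : ∃ P ∈ S, Q.r g P (ρ * 2 ^ (g - m))
  · obtain ⟨P, hP, hQ⟩ := h
    left
    refine ⟨g, hg, le_rfl, P, hP, ?_⟩
    apply card_pos.2
    refine ⟨ρ * 2 ^ (g - m), mem_users.2 ⟨by simpa using hQ, leaf_div⟩⟩
  · push Not at h
    right
    exact ⟨ρ * 2 ^ (g - m), leaf_lt hg hρ, leaf_div, fun P hP _ => h P hP⟩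

end Helper49_RK
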