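import Mathlib

/-!
# Definitions: Martin-Loef randomness and `rK`-reducibility

A real is an infinite binary sequence `Z : ℕ → Bool`.
-/

open MeasureTheory
open scoped ENNReal

namespace Helper49_RK

/-- The initial segment of length `n` of the real `Z`. -/
def seg (Z : ℕ → Bool) (n : ℕ) : List Bool := (List.range n).map Z

/-- The fair-coin (uniform) measure on Cantor space. -/
noncomputable def coin : Measure (ℕ → Bool) :=
  Measure.infinitePi fun _ : ℕ => (PMF.uniformOfFintype Bool).toMeasure

/-- The open set generated by a set `W` of strings: all reals with an initial segment in `W`. -/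
def cyl (W : Set (List Bool)) : Set (ℕ → Bool) := {Z | ∃ n, seg Z n ∈ W}

/-- A Martin-Loef test: a uniformly recursively enumerable sequence of sets of strings such that the
`k`-th generated open set has measure at most `2 ^ (-k)`. -/
structure IsMLTest (W : ℕ → Set (List Bool)) : Prop where
  re : REPred fun p : ℕ × List Bool => p.2 ∈ W p.1
  small : ∀ k, coin (cyl (W k)) ≤ (1 / 2 : ℝ≥0∞) ^ k

/-- `1`-randomness (Martin-Loef randomness). -/
def MLRandom (Z : ℕ → Bool) : Prop := ∀ W, IsMLTest W → ∃ k, Z ∉ cyl (W k)

/-- A conditional prefix-free machine: a computable function `M` that is not necessarily total,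
with arguments (program, condition), such that for each condition `y` the set of programs on which
it halts is prefix-free. -/
structure IsPFMachine (M : List Bool × List Bool →. List Bool) : Prop where
  computable : Partrec M
  free : ∀ y p q, (M (p, y)).Dom → (M (q, y)).Dom → p <+: q → p = q

/-- Conditional complexity `K_M(x | y)` of `x` given `y` with respect to the machine `M`. -/
noncomputable def condK (M : List Bool × List Bool →. List Bool) (x y : List Bool) : ℕ∞ :=
  ⨅ (p : List Bool) (_ : x ∈ M (p, y)), (p.length : ℕ∞)

/-- `U` is a universal (additively optimal) conditional prefix-free machine. -/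
def IsOptimal (U : List Bool × List Bool →. List Bool) : Prop :=
  IsPFMachine U ∧ ∀ M, IsPFMachine M → ∃ c : ℕ, ∀ x y, condK U x y ≤ condK M x y + c

/-- `A ≤_rK B`: for some conditional prefix-free machine `M` (equivalently, for the universal
one, see `rKReducible_iff`) and some constant `c`, `K_M(A ↾ n | B ↾ n) ≤ c` for all `n`. -/
def RKReducible (A B : ℕ → Bool) : Prop :=
  ∃ M, IsPFMachine M ∧ ∃ c : ℕ, ∀ n, condK M (seg A n) (seg B n) ≤ c

/-- With respect to any universal machine `U`, the definition above is the usual one. -/
theorem rKReducible_iff {U : List Bool × List Bool →. List Bool} (hU : IsOptimal U)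
    (A B : ℕ → Bool) :
    RKReducible A B ↔ ∃ c : ℕ, ∀ n, condK U (seg A n) (seg B n) ≤ c := by
  constructor
  · rintro ⟨M, hM, c, hc⟩
    obtain ⟨d, hd⟩ := hU.2 M hM
    refine ⟨c + d, fun n => (hd _ _).trans ?_⟩
    push_cast
    gcongr
    exact hc n
  · rintro ⟨c, hc⟩
    exact ⟨U, hU.1, c, hc⟩

end Helper49_RK
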