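import Pool.Agent.Helper49_RK.Meas

/-!
# A real that is not `rK`-reducible to any random real
-/

namespace Helper49_RK

open Nat.Partrec (Code)

/-- Finite extension construction of a real meeting countably many requirements. -/
theorem exists_real {Req : ℕ → ℕ → ℕ → Prop}
    (hext : ∀ j m ρ, ρ < 2 ^ m → ∃ N, m ≤ N ∧ ∃ a < 2 ^ N, a / 2 ^ (N - m) = ρ ∧ Req j N a) :
    ∃ A : ℕ → Bool, ∀ j, ∃ N, Req j N (val (seg A N)) := by
  choose! FN hFN1 Fa hFa1 hFa2 hFa3 using hext
  set sq : ℕ → ℕ × ℕ := fun j =>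
    Nat.rec (0, 0) (fun j p => (FN j p.1 p.2 + 1, 2 * Fa j p.1 p.2)) j with hsq
  have sq0 : sq 0 = (0, 0) := rfl
  have sqs : ∀ j, sq (j + 1) = (FN j (sq j).1 (sq j).2 + 1, 2 * Fa j (sq j).1 (sq j).2) :=
    fun j => rfl
  have hlt : ∀ j, (sq j).2 < 2 ^ (sq j).1 := by
    intro j
    induction j with
    | zero => simp [sq0]
    | succ j ih =>
      rw [sqs]
      have := hFa1 j _ _ ih
      simp only [pow_succ]
      omega
  have hstep : ∀ j, (sq j).1 < (sq (j + 1)).1 := by
    intro j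
    rw [sqs]
    have := hFN1 j _ _ (hlt j)
    simp only
    omega
  have hge : ∀ j, j ≤ (sq j).1 := by
    intro j
    induction j with
    | zero => exact Nat.zero_le _
    | succ j ih => have := hstep j; omega
  have hmono : Monotone fun j => (sq j).1 := monotone_nat_of_le_succ fun j => (hstep j).le
  have hcoh1 : ∀ j, (sq (j + 1)).2 / 2 ^ ((sq (j + 1)).1 - (sq j).1) = (sq j).2 := by
    intro j
    have h1 := hFa2 j _ _ (hlt j)
    have h2 := hFN1 j _ _ (hlt j)
    rw [sqs]
    simp only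
    rw [show FN j (sq j).1 (sq j).2 + 1 - (sq j).1 = (FN j (sq j).1 (sq j).2 - (sq j).1) + 1 by
      omega, pow_succ', ← Nat.div_div_eq_div_mul, Nat.mul_div_cancel_left _ (by norm_num)]
    exact h1
  have hcoh2 : ∀ j j', j ≤ j' → (sq j').2 / 2 ^ ((sq j').1 - (sq j).1) = (sq j).2 := by
    intro j j' hjj
    induction hjj with
    | refl => simp
    | @step j' hj ih =>
      have hj' : j ≤ j' := hj
      rw [← div_anc (hmono hj') (hstep j').le, hcoh1 j']
      exact ih
  have hcoh3 : ∀ n j j', n ≤ (sq j).1 → n ≤ (sq j').1 →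
      (sq j).2 / 2 ^ ((sq j).1 - n) = (sq j').2 / 2 ^ ((sq j').1 - n) := by
    intro n j j' h1 h2
    rcases le_total j j' with h | h
    · rw [← hcoh2 j j' h, div_anc h1 (hmono h)]
    · rw [← hcoh2 j' j h, div_anc h2 (hmono h)]
  set A : ℕ → Bool := fun i => decide ((sq (i + 1)).2 / 2 ^ ((sq (i + 1)).1 - (i + 1)) % 2 = 1)
    with hA
  have hval : ∀ n j, n ≤ (sq j).1 → val (seg A n) = (sq j).2 / 2 ^ ((sq j).1 - n) := by
    intro n
    induction n with
    | zero =>
      intro j _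
      rw [Nat.sub_zero, Nat.div_eq_of_lt (hlt j)]
      simp [seg, val]
    | succ n ih =>
      intro j hj
      rw [val_seg_succ, ih j (by omega)]
      have h1 : bit (A n) = (sq j).2 / 2 ^ ((sq j).1 - (n + 1)) % 2 := by
        rw [hcoh3 (n + 1) j (n + 1) hj (hge (n + 1)), hA]
        simp only
        rcases Nat.mod_two_eq_zero_or_one
          ((sq (n + 1)).2 / 2 ^ ((sq (n + 1)).1 - (n + 1))) with h | h <;> simp [bit, h]
      rw [h1, show (sq j).1 - n = ((sq j).1 - (n + 1)) + 1 by omega, pow_succ,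
        ← Nat.div_div_eq_div_mul]
      omega
  refine ⟨A, fun j => ⟨FN j (sq j).1 (sq j).2, ?_⟩⟩
  have h1 := hval (FN j (sq j).1 (sq j).2) (j + 1) (by rw [sqs]; simp)
  rw [sqs] at h1
  simp only [Nat.add_sub_cancel_left, pow_one] at h1
  rw [Nat.mul_div_cancel_left _ (by norm_num)] at h1
  rw [h1]
  exact hFa3 j _ _ (hlt j)

/-- The list of all programs of length at most `c`. -/
theorem exists_progs (c : ℕ) : ∃ Pl : List (List Bool), ∀ p, p ∈ Pl ↔ p.length ≤ c := by
  have h := List.finite_length_le Bool c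
  refine ⟨h.toFinset.toList, fun p => ?_⟩
  rw [Finset.mem_toList, Set.Finite.mem_toFinset]
  rfl

theorem exists_code {M : List Bool × List Bool →. List Bool} (hM : Partrec M) :
    ∃ e : Code, ∀ p y x, x ∈ M (p, y) → Encodable.encode x ∈ e.eval (Encodable.encode (p, y)) := by
  obtain ⟨e, he⟩ := Code.exists_code.1 hM
  refine ⟨e, fun p y x hx => ?_⟩
  rw [he]
  simp only [Encodable.encodek, Part.coe_some, Part.bind_some]
  exact Part.mem_map _ hx

/-- There is a real `A` that is not `rK`-reducible to any Martin-Loef random real. -/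
theorem exists_not_rK : ∃ A : ℕ → Bool, ∀ Z : ℕ → Bool, MLRandom Z → ¬ RKReducible A Z := by
  choose progs hprogs using exists_progs
  obtain ⟨f, hf⟩ := exists_surjective_nat (Code × ℕ × ℕ)
  obtain ⟨A, hA⟩ := exists_real (Req := fun j N a => ∀ Z : ℕ → Bool,
    Z ∉ cyl (V (f j).1 (progs (f j).2.1) (f j).2.2) →
      ∃ i ≤ N, ∀ t, ¬ st (f j).1 (progs (f j).2.1) t (tri i (val (seg Z i)) (a / 2 ^ (N - i))))
    (fun j m ρ hρ => exists_ext (f j).1 (progs (f j).2.1) (f j).2.2 m ρ hρ)
  refine ⟨A, fun Z hZ hred => ?_⟩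
  obtain ⟨M, hM, c, hc⟩ := hred
  obtain ⟨e, he⟩ := exists_code hM.computable
  obtain ⟨k, hk⟩ := hZ _ (V_test e (progs c))
  obtain ⟨j, hj⟩ := hf (e, c, k)
  obtain ⟨N, hN⟩ := hA j
  rw [hj] at hN
  obtain ⟨i, hi, hno⟩ := hN Z hk
  -- a short program at length `i`
  have h1 : ∃ p : List Bool, p.length ≤ c ∧ seg A i ∈ M (p, seg Z i) := by
    by_contra hcon
    push Not at hcon
    have h2 : ((c + 1 : ℕ) : ℕ∞) ≤ condK M (seg A i) (seg Z i) := by
      unfold condK
      refine le_iInf fun p => le_iInf fun hp => ?_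
      have h3 : c < p.length := by
        by_contra h4
        exact hcon p (by omega) hp
      exact_mod_cast h3
    have h3 := h2.trans (hc i)
    have h4 : c + 1 ≤ c := by exact_mod_cast h3
    omega
  obtain ⟨p, hpc, hp⟩ := h1
  obtain ⟨t, ht⟩ := Code.evaln_complete.1 (he p _ _ hp)
  apply hno t
  have h5 : val (seg A N) / 2 ^ (N - i) = val (seg A i) := val_seg_div A hi
  rw [h5]
  unfold st tri
  simp only [Nat.unpair_pair]
  refine ⟨val_seg_lt A i, p, (hprogs c p).2 hpc, ?_⟩
  rw [toStr_val_seg, toStr_val_seg]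
  exact ht

end Helper49_RK
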