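import Pool.Agent.Helper49_RK.Core

/-!
# The jump lemma
-/

open Finset

namespace Helper49_RK

open Classical in
/-- The nodes of `Γ` all of whose users in the cell `ρ` (level `m`) lie in the cell `ρ'`
(level `m'`). -/
noncomputable def onlyUsers (m g' m' ρ : ℕ) (Γ : Finset ℕ) (Q : Rel) (ρ' : ℕ) : Finset ℕ :=
  Γ.filter fun P => ∀ a, Q.r g' P a → a / 2 ^ (g' - m) = ρ → a / 2 ^ (g' - m') = ρ'

theorem mem_onlyUsers {m g' m' ρ : ℕ} {Γ : Finset ℕ} {Q : Rel} {ρ' P : ℕ} :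
    P ∈ onlyUsers m g' m' ρ Γ Q ρ' ↔ P ∈ Γ ∧
      ∀ a, Q.r g' P a → a / 2 ^ (g' - m) = ρ → a / 2 ^ (g' - m') = ρ' := by
  simp only [onlyUsers, mem_filter]

theorem exists_select {m n m' g' ρ : ℕ} {Γ : Finset ℕ} {Q : Rel}
    (hΓ : ∀ P ∈ Γ, ∃ a, Q.r g' P a ∧ a / 2 ^ (g' - m) = ρ) :
    ∃ sel : ℕ → ℕ, (∀ l, sel l / 2 ^ (m' - n) = l) ∧ ∀ Λ : Finset ℕ,
      ((Λ.biUnion fun l => onlyUsers m g' m' ρ Γ Q (sel l)).card : ℝ) ≤
        Γ.card / 2 ^ (m' - n) := by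
  classical
  -- a chosen user
  have hu : ∃ u : ℕ → ℕ, ∀ P ∈ Γ, Q.r g' P (u P) ∧ u P / 2 ^ (g' - m) = ρ := by
    refine ⟨fun P => if h : ∃ a, Q.r g' P a ∧ a / 2 ^ (g' - m) = ρ then h.choose else 0, ?_⟩
    intro P hP
    have h := hΓ P hP
    simp only [h, dif_pos]
    exact h.choose_spec
  obtain ⟨u, hu⟩ := hu
  set f : ℕ → ℕ := fun P => u P / 2 ^ (g' - m') with hf
  have key : ∀ l, ∃ y, y / 2 ^ (m' - n) = l ∧
      ((onlyUsers m g' m' ρ Γ Q y).card : ℝ) ≤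
        ((Γ.filter fun P => f P / 2 ^ (m' - n) = l).card : ℝ) / 2 ^ (m' - n) := by
    intro l
    have hcard := card_desc_singleton m' n l
    have hne : (desc m' n {l}).Nonempty := by
      rw [← card_pos, hcard]; positivity
    have h1 : (((Γ.filter fun P => f P / 2 ^ (m' - n) = l).card : ℕ) : ℝ) ≤
        (desc m' n {l}).card • (((Γ.filter fun P => f P / 2 ^ (m' - n) = l).card : ℝ) /
          2 ^ (m' - n)) := by
      rw [hcard, nsmul_eq_mul]
      push_cast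
      rw [mul_div_cancel₀]
      positivity
    obtain ⟨y, hy, hy2⟩ := Finset.exists_card_fiber_le_of_card_le_nsmul (f := f) hne h1
    refine ⟨y, by simpa using mem_desc.1 hy, le_trans ?_ hy2⟩
    have : onlyUsers m g' m' ρ Γ Q y ⊆
        (Γ.filter fun P => f P / 2 ^ (m' - n) = l).filter fun P => f P = y := by
      intro P hP
      rw [mem_onlyUsers] at hP
      obtain ⟨hPΓ, hP2⟩ := hP
      obtain ⟨h3, h4⟩ := hu P hPΓ
      have h5 : f P = y := hP2 _ h3 h4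
      simp only [mem_filter]
      exact ⟨⟨hPΓ, by rw [h5]; simpa using mem_desc.1 hy⟩, h5⟩
    exact_mod_cast card_le_card this
  choose sel hsel1 hsel2 using key
  refine ⟨sel, hsel1, fun Λ => ?_⟩
  have h1 : ((Λ.biUnion fun l => onlyUsers m g' m' ρ Γ Q (sel l)).card : ℝ) ≤
      ∑ l ∈ Λ, ((onlyUsers m g' m' ρ Γ Q (sel l)).card : ℝ) := by
    exact_mod_cast card_biUnion_le
  refine h1.trans ((sum_le_sum fun l _ => hsel2 l).trans ?_)
  rw [← sum_div]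
  have h2 : ∑ l ∈ Λ, ((Γ.filter fun P => f P / 2 ^ (m' - n) = l).card : ℝ) ≤ (Γ.card : ℝ) := by
    have := sum_card_fiberwise_eq_card_filter Γ Λ fun P => f P / 2 ^ (m' - n)
    have h3 : ∑ l ∈ Λ, (Γ.filter fun P => f P / 2 ^ (m' - n) = l).card ≤ Γ.card := by
      rw [this]; exact card_filter_le _ _
    exact_mod_cast h3
  gcongr

theorem claim {N w m g ρ n m' g' r' l : ℕ} {S S' 𝒯 : Finset ℕ} {Q Q₂ : Rel} {U₂ : Finset ℕ}
    (hmn : m ≤ n) (hnm' : n ≤ m') (hmg' : m' ≤ g') (hg' : g' ≤ g) (hgN : g ≤ N)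
    (hsub : ∀ P ∈ S', P ∈ shadow g g' S)
    (huser : ∀ P ∈ S', ∃ b, Q.r g' P b ∧ b / 2 ^ (g' - m) = ρ ∧ b / 2 ^ (g' - m') ≠ r')
    (hT : ∀ P ∈ shadow g g' S, Alive N g' U₂ P → P / 2 ^ (g' - n) ∈ 𝒯 → P ∈ S')
    (hr' : r' / 2 ^ (m' - n) = l) (hl : l / 2 ^ (n - m) = ρ) (hQ : Q ≤ Q₂)
    (hG : Goal N w m' g' r' S' Q₂ U₂) :
    Goal N (w + 1) m g ρ S Q₂ U₂ ∨ ∃ q ∈ shadow g n S, q ∉ 𝒯 ∧ Q₂.r n q l := by
  classical
  by_contra hcon
  push Not at hcon
  obtain ⟨hnG, hnH⟩ := hcon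
  unfold Goal at hnG
  push Not at hnG
  obtain ⟨hw, hhost⟩ := hnG
  have hr'ρ : r' / 2 ^ (m' - m) = ρ := by
    rw [← div_anc hmn hnm', hr', hl]
  rcases hG with ⟨j, hj1, hj2, P, hP, hcard⟩ | ⟨a, ha, har', hno⟩
  · obtain ⟨b, hb, hbρ, hbr'⟩ := huser P hP
    obtain ⟨P₀, hP₀, rfl⟩ := mem_shadow.1 (hsub P hP)
    rw [div_anc hj2 hg'] at hcard
    have h1 := hw j (by omega) (by omega) P₀ hP₀
    have hb' : b / 2 ^ (g' - j) ∈ users m j ρ Q₂ (P₀ / 2 ^ (g - j)) := by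
      rw [mem_users]
      constructor
      · have := Q₂.anc hj2 (hQ _ _ _ hb)
        rwa [div_anc hj2 hg'] at this
      · rw [div_anc (by omega) hj2, hbρ]
    have hb'' : b / 2 ^ (g' - j) ∉ users m' j r' Q₂ (P₀ / 2 ^ (g - j)) := by
      rw [mem_users, div_anc hj1 hj2]
      exact fun h => hbr' h.2
    have hsub2 : insert (b / 2 ^ (g' - j)) (users m' j r' Q₂ (P₀ / 2 ^ (g - j))) ⊆
        users m j ρ Q₂ (P₀ / 2 ^ (g - j)) := by
      intro x hx
      rw [mem_insert] at hx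
      rcases hx with rfl | hx
      · exact hb'
      · rw [mem_users] at hx ⊢
        refine ⟨hx.1, ?_⟩
        rw [← div_anc (show m ≤ m' by omega) hj1, hx.2, hr'ρ]
    have h2 := card_le_card hsub2
    rw [card_insert_of_notMem hb''] at h2
    omega
  · have hgg : a * 2 ^ (g - g') < 2 ^ g := leaf_lt hg' ha
    have haρ : a / 2 ^ (g' - m) = ρ := by
      rw [← div_anc (show m ≤ m' by omega) hmg', har', hr'ρ]
    obtain ⟨P₀, hP₀, hal, hr⟩ := hhost (a * 2 ^ (g - g')) hgg (by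
      rw [← div_anc (show m ≤ g' by omega) hg', leaf_div, haρ])
    have h1 : Q₂.r g' (P₀ / 2 ^ (g - g')) a := by
      have := Q₂.anc hg' hr
      rwa [leaf_div] at this
    have h2 : Alive N g' U₂ (P₀ / 2 ^ (g - g')) := hal.anc hg' hgN
    have h3 : P₀ / 2 ^ (g - g') ∈ shadow g g' S := mem_shadow.2 ⟨P₀, hP₀, rfl⟩
    by_cases h4 : P₀ / 2 ^ (g - g') / 2 ^ (g' - n) ∈ 𝒯
    · exact hno _ (hT _ h3 h2 h4) h2 h1
    · refine hnH (P₀ / 2 ^ (g - g') / 2 ^ (g' - n)) ?_ h4 ?_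
      · rw [div_anc (by omega) hg']
        exact mem_shadow.2 ⟨P₀, hP₀, rfl⟩
      · have h5 := Q₂.anc (show n ≤ g' by omega) h1
        have h6 : a / 2 ^ (g' - n) = l := by rw [← div_anc hnm' hmg', har', hr']
        rwa [h6] at h5

/-- Sequential play over a finite set of cells. -/
theorem force_all {N : ℕ} {Gf : Rel → Finset ℕ → Prop} {H : ℕ → Rel → Prop} {ε : ℝ}
    (hε : 0 ≤ ε) (hH : ∀ l Q Q', Q ≤ Q' → H l Q → H l Q')
    {Q₁ : Rel} {U₁ : Finset ℕ} (Λ : Finset ℕ)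
    (hf : ∀ l ∈ Λ, ∀ Q' U', Q₁ ≤ Q' → U₁ ⊆ U' →
      Force N (fun Q'' U'' => Gf Q'' U'' ∨ H l Q'') ε Q' U') :
    Force N (fun Q'' U'' => Gf Q'' U'' ∨ ∀ l ∈ Λ, H l Q'') (Λ.card * ε) Q₁ U₁ := by
  classical
  induction Λ using Finset.induction_on with
  | empty => exact .done (by simp) (Or.inr (by simp))
  | @insert l Λ hl ih =>
    have h1 := ih fun l' hl' => hf l' (mem_insert_of_mem hl')
    have h2 : Force N (fun Q'' U'' => Gf Q'' U'' ∨ ∀ l' ∈ insert l Λ, H l' Q'')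
        (Λ.card * ε + ε) Q₁ U₁ := by
      refine h1.bind fun Q' U' hQ hU hG => ?_
      have h3 := hf l (mem_insert_self _ _) Q' U' hQ hU
      rcases hG with hG | hG
      · exact .done hε (Or.inl hG)
      · have h4 : Force N (fun Q'' U'' => Gf Q'' U'' ∨ ∀ l' ∈ insert l Λ, H l' Q'') (ε + 0)
            Q' U' := by
          refine h3.bind fun Q'' U'' hQ'' hU'' hG' => .done le_rfl ?_
          rcases hG' with hG' | hG'
          · exact Or.inl hG'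
          · right
            intro l' hl'
            rw [mem_insert] at hl'
            rcases hl' with rfl | hl'
            · exact hG'
            · exact hH l' _ _ hQ'' (hG l' hl')
        simpa using h4
    rw [card_insert_of_notMem hl]
    push_cast
    exact h2.mono (by linarith)

theorem jump_aux {w m g n ρ : ℕ} (hmn : m ≤ n) (hng : n ≤ g) {N : ℕ} {S : Finset ℕ} {Q Q' : Rel}
    {U' : Finset ℕ} (hQ : Q ≤ Q') (hG : ¬ Goal N (w + 1) m g ρ S Q' U')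
    (hH : ∀ l ∈ desc n m {ρ}, ∃ q ∈ shadow g n S, q ∉ touched m g n ρ S Q ∧ Q'.r n q l) :
    T m g n ρ S Q + 1 / ((w + 1) * 2 ^ m) ≤ T m g n ρ S Q' := by
  classical
  set 𝒩 := touched m g n ρ S Q' \ touched m g n ρ S Q with h𝒩
  unfold Goal at hG
  push Not at hG
  have hw := hG.1 n hmn hng
  have h1 : desc n m {ρ} ⊆ 𝒩.biUnion fun q => users m n ρ Q' q := by
    intro l hl
    obtain ⟨q, hq, hqT, hr⟩ := hH l hl
    have hlρ : l / 2 ^ (n - m) = ρ := by simpa using mem_desc.1 hl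
    rw [mem_biUnion]
    refine ⟨q, ?_, mem_users.2 ⟨hr, hlρ⟩⟩
    rw [h𝒩, mem_sdiff]
    exact ⟨mem_touched.2 ⟨mem_shadow.1 hq, l, hr, hlρ⟩, hqT⟩
  have h2 : (𝒩.biUnion fun q => users m n ρ Q' q).card ≤ 𝒩.card * (w + 1) := by
    apply card_biUnion_le_card_mul
    intro q hq
    obtain ⟨P, hP, rfl⟩ := (mem_touched.1 (mem_sdiff.1 hq).1).1
    exact hw P hP
  have h3 : 2 ^ (n - m) ≤ 𝒩.card * (w + 1) := by
    rw [← card_desc_singleton n m ρ]
    exact (card_le_card h1).trans h2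
  have hsub : touched m g n ρ S Q ⊆ touched m g n ρ S Q' := by
    intro q hq
    rw [mem_touched] at hq ⊢
    obtain ⟨h1, a, ha, ha'⟩ := hq
    exact ⟨h1, a, hQ _ _ _ ha, ha'⟩
  have h4 : (touched m g n ρ S Q').card = (touched m g n ρ S Q).card + 𝒩.card := by
    rw [h𝒩, card_sdiff_of_subset hsub]
    have := card_le_card hsub
    omega
  unfold T
  rw [h4]
  push_cast
  rw [add_div]
  have h5 : (2 : ℝ) ^ (n - m) ≤ 𝒩.card * (w + 1) := by exact_mod_cast h3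
  have h6 : (1 : ℝ) / ((w + 1) * 2 ^ m) ≤ 𝒩.card / 2 ^ n := by
    rw [div_le_div_iff₀ (by positivity) (by positivity)]
    calc (1 : ℝ) * 2 ^ n = 2 ^ (n - m) * 2 ^ m := by
          rw [one_mul, ← pow_add, Nat.sub_add_cancel hmn]
      _ ≤ (𝒩.card * (w + 1)) * 2 ^ m := by gcongr
      _ = 𝒩.card * ((w + 1) * 2 ^ m) := by ring
  linarith

theorem exists_small (c η : ℝ) (hη : 0 < η) : ∃ d : ℕ, c / 2 ^ d ≤ η := by
  obtain ⟨d, hd⟩ := pow_unbounded_of_one_lt (c / η) (one_lt_two : (1 : ℝ) < 2)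
  refine ⟨d, ?_⟩
  rw [div_le_iff₀ (by positivity)]
  rw [div_lt_iff₀ hη] at hd
  linarith

theorem lt_pow_of_div {x k n : ℕ} (h : x / 2 ^ k < 2 ^ n) : x < 2 ^ (n + k) := by
  rw [Nat.div_lt_iff_lt_mul (by positivity), ← pow_add] at h
  exact h

theorem jump {w : ℕ} (ih : PW w) (m K n : ℕ) (hmn : m ≤ n) (η : ℝ) (hη : 0 < η) :
    ∃ G₁, n ≤ G₁ ∧ ∀ g', G₁ ≤ g' → ∀ g, g' ≤ g → ∀ N, g ≤ N → ∀ (ρ : ℕ) (S : Finset ℕ),
      ρ < 2 ^ m → (shadow g m S).card ≤ K → ∀ Q U,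
        Force N (fun Q' U' => Goal N (w + 1) m g ρ S Q' U' ∨
          T m g n ρ S Q + 1 / ((w + 1) * 2 ^ m) ≤ T m g n ρ S Q')
          (T m g n ρ S Q - T m g g' ρ S Q + η) Q U := by
  classical
  obtain ⟨d, hd⟩ := exists_small (K / 2 ^ m) (η / 2) (by positivity)
  set m' := n + d with hm'
  set ε' : ℝ := η / 2 / 2 ^ (n - m) with hε'
  have hε'pos : 0 < ε' := by positivity
  obtain ⟨G', hmG', hG'⟩ := ih m' (K * 2 ^ (m' - m)) ε' hε'pos
  refine ⟨G', by omega, ?_⟩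
  intro g' hg' g hg N hN ρ S hρ hK Q U
  set 𝒯 := touched m g n ρ S Q with h𝒯
  set Γ := touched m g g' ρ S Q with hΓ
  have hΓuser : ∀ P ∈ Γ, ∃ a, Q.r g' P a ∧ a / 2 ^ (g' - m) = ρ := fun P hP =>
    (mem_touched.1 hP).2
  obtain ⟨sel, hsel1, hsel2⟩ := exists_select (m := m) (n := n) (m' := m') (g' := g') hΓuser
  set Λ := desc n m {ρ} with hΛ
  have hΛmem : ∀ l ∈ Λ, l / 2 ^ (n - m) = ρ := fun l hl => by simpa using mem_desc.1 hl
  set XX := Λ.biUnion fun l => onlyUsers m g' m' ρ Γ Q (sel l) with hXX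
  set D := (shadow g g' S).filter fun P => P / 2 ^ (g' - n) ∈ 𝒯 with hD
  set X := (D \ Γ) ∪ XX with hX
  set U₁ := U ∪ desc N g' X with hU₁
  have hΓD : Γ ⊆ D := by
    intro P hP
    have hP' := mem_touched.1 hP
    obtain ⟨⟨P₀, hP₀, hP₀'⟩, a, ha, haρ⟩ := hP'
    rw [hD, mem_filter]
    refine ⟨mem_shadow.2 ⟨P₀, hP₀, hP₀'⟩, ?_⟩
    rw [h𝒯, mem_touched]
    refine ⟨⟨P₀, hP₀, ?_⟩, a / 2 ^ (g' - n), Q.anc (by omega) ha, ?_⟩
    · rw [← hP₀', div_anc (by omega) hg]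
    · rw [div_anc hmn (by omega), haρ]
  have hDcard : D.card ≤ 𝒯.card * 2 ^ (g' - n) := by
    apply card_le_of_anc
    intro q hq
    exact (mem_filter.1 hq).2
  have hXcard : (X.card : ℝ) ≤ 𝒯.card * 2 ^ (g' - n) - Γ.card + Γ.card / 2 ^ d := by
    have h1 : X.card ≤ (D \ Γ).card + XX.card := card_union_le _ _
    have h2 : (D \ Γ).card = D.card - Γ.card := card_sdiff_of_subset hΓD
    have h3 : Γ.card ≤ D.card := card_le_card hΓD
    have h4 : (XX.card : ℝ) ≤ Γ.card / 2 ^ d := by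
      have := hsel2 Λ
      rwa [show m' - n = d by omega] at this
    have h5 : (X.card : ℝ) ≤ (D.card - Γ.card) + XX.card := by
      rw [h2] at h1
      have : ((X.card : ℕ) : ℝ) ≤ ((D.card - Γ.card + XX.card : ℕ) : ℝ) := by exact_mod_cast h1
      rwa [Nat.cast_add, Nat.cast_sub h3] at this
    have h6 : (D.card : ℝ) ≤ 𝒯.card * 2 ^ (g' - n) := by exact_mod_cast hDcard
    linarith
  have hU₁card : ((U₁.card : ℝ) - U.card) / 2 ^ N ≤ X.card / 2 ^ g' := by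
    have h1 : U₁.card ≤ U.card + X.card * 2 ^ (N - g') :=
      (card_union_le _ _).trans (Nat.add_le_add_left (card_desc_le _ _ _) _)
    have h2 : (U₁.card : ℝ) ≤ U.card + X.card * 2 ^ (N - g') := by exact_mod_cast h1
    rw [div_le_div_iff₀ (by positivity) (by positivity)]
    calc ((U₁.card : ℝ) - U.card) * 2 ^ g' ≤ (X.card * 2 ^ (N - g')) * 2 ^ g' := by
          gcongr; linarith
      _ = X.card * 2 ^ N := by
          rw [mul_assoc, ← pow_add, Nat.sub_add_cancel (by omega)]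
  have hTn : T m g n ρ S Q = 𝒯.card / 2 ^ n := rfl
  have hTg : T m g g' ρ S Q = Γ.card / 2 ^ g' := rfl
  have hcost : ((U₁.card : ℝ) - U.card) / 2 ^ N ≤
      T m g n ρ S Q - T m g g' ρ S Q + η / 2 := by
    have h1 : (X.card : ℝ) / 2 ^ g' ≤
        (𝒯.card * 2 ^ (g' - n) - Γ.card + Γ.card / 2 ^ d) / 2 ^ g' := by gcongr
    have h2 : (𝒯.card * 2 ^ (g' - n) : ℝ) / 2 ^ g' = 𝒯.card / 2 ^ n := by
      rw [div_eq_div_iff (by positivity) (by positivity), mul_assoc, ← pow_add,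
        Nat.sub_add_cancel (by omega)]
    have h3 : (Γ.card / 2 ^ d : ℝ) / 2 ^ g' ≤ η / 2 := by
      have h4 : T m g g' ρ S Q ≤ K / 2 ^ m := T_le (by omega) hg hK
      rw [hTg] at h4
      calc (Γ.card / 2 ^ d : ℝ) / 2 ^ g' = (Γ.card / 2 ^ g') / 2 ^ d := by
            rw [div_div, div_div, mul_comm]
        _ ≤ (K / 2 ^ m) / 2 ^ d := by gcongr
        _ ≤ η / 2 := hd
    rw [add_div, sub_div, h2] at h1
    rw [hTn, hTg]
    linarith
  have hΛcard : (Λ.card : ℝ) * ε' = η / 2 := by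
    rw [hΛ, card_desc_singleton, hε']
    push_cast
    rw [mul_div_cancel₀]
    positivity
  refine .kill (b' := Λ.card * ε') U₁ subset_union_left (by rw [hΛcard]; linarith) ?_
  intro Q₁ hQ₁
  set S' := Γ \ XX with hS'
  have hf : ∀ l ∈ Λ, ∀ Q' U', Q₁ ≤ Q' → U₁ ⊆ U' →
      Force N (fun Q'' U'' => Goal N (w + 1) m g ρ S Q'' U'' ∨
        (fun l Q'' => ∃ q ∈ shadow g n S, q ∉ 𝒯 ∧ Rel.r Q'' n q l) l Q'') ε' Q' U' := by
    intro l hl Q' U' hQ' hU'
    have hl2 : l < 2 ^ n := by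
      have := lt_pow_of_div (x := l) (k := n - m) (n := m) (by rw [hΛmem l hl]; exact hρ)
      rwa [Nat.add_sub_cancel' hmn] at this
    have hsl : sel l < 2 ^ m' := by
      have := lt_pow_of_div (x := sel l) (k := m' - n) (n := n) (by rw [hsel1 l]; exact hl2)
      rwa [Nat.add_sub_cancel' (by omega)] at this
    have hcard' : (shadow g' m' S').card ≤ K * 2 ^ (m' - m) := by
      refine le_trans (card_le_of_anc (n := m) (n' := m') (B := shadow g m S) ?_)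
        (Nat.mul_le_mul_right _ hK)
      intro q hq
      obtain ⟨P, hP, rfl⟩ := mem_shadow.1 hq
      obtain ⟨⟨P₀, hP₀, rfl⟩, -⟩ := mem_touched.1 (mem_sdiff.1 hP).1
      rw [div_anc (show m ≤ m' by omega) (show m' ≤ g' by omega), div_anc (by omega) hg]
      exact mem_shadow.2 ⟨P₀, hP₀, rfl⟩
    have h1 := hG' g' hg' N (by omega) (sel l) S' hsl hcard' Q' U'
    have h2 := h1.bind (H := fun Q'' U'' => Goal N (w + 1) m g ρ S Q'' U'' ∨
        (fun l Q'' => ∃ q ∈ shadow g n S, q ∉ 𝒯 ∧ Rel.r Q'' n q l) l Q'') (c := 0) ?_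
    · simpa using h2
    intro Q'' U'' hQ'' hU'' hG''
    refine .done le_rfl ?_
    refine claim (Q := Q) (r' := sel l) (m' := m') (g' := g') (S' := S') hmn (by omega)
      (by omega) hg hN ?_ ?_ ?_ (hsel1 l) (hΛmem l hl)
      (Rel.le_trans hQ₁ (Rel.le_trans hQ' hQ'')) hG''
    · intro P hP
      exact mem_shadow.2 (mem_touched.1 (mem_sdiff.1 hP).1).1
    · intro P hP
      obtain ⟨hP1, hP2⟩ := mem_sdiff.1 hP
      have hP3 : P ∉ onlyUsers m g' m' ρ Γ Q (sel l) := fun h =>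
        hP2 (mem_biUnion.2 ⟨l, hl, h⟩)
      rw [mem_onlyUsers] at hP3
      push Not at hP3
      obtain ⟨a, h1, h2, h3⟩ := hP3 hP1
      exact ⟨a, h1, h2, h3⟩
    · intro P hP hal hPT
      have h3 : P ∉ X := by
        apply Alive.not_mem (N := N) (g := g') (U := U'') _ hal
        exact subset_union_right.trans (hU'.trans hU'')
      rw [hX, mem_union, not_or, mem_sdiff] at h3
      have h4 : P ∈ D := mem_filter.2 ⟨hP, hPT⟩
      rw [hS', mem_sdiff]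
      refine ⟨?_, h3.2⟩
      by_contra h5
      exact h3.1 ⟨h4, h5⟩
  have h1 := force_all (Gf := Goal N (w + 1) m g ρ S)
    (H := fun l Q'' => ∃ q ∈ shadow g n S, q ∉ 𝒯 ∧ Rel.r Q'' n q l) hε'pos.le
    (fun l Q Q' hQQ' ⟨q, h1, h2, h3⟩ => ⟨q, h1, h2, hQQ' _ _ _ h3⟩) (Q₁ := Q₁) (U₁ := U₁) Λ hf
  have h2 := h1.bind (H := fun Q' U' => Goal N (w + 1) m g ρ S Q' U' ∨
          T m g n ρ S Q + 1 / ((w + 1) * 2 ^ m) ≤ T m g n ρ S Q') (c := 0) ?_
  · simpa using h2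
  intro Q' U' hQ' hU' hG
  refine .done le_rfl ?_
  by_cases hG2 : Goal N (w + 1) m g ρ S Q' U'
  · exact Or.inl hG2
  · right
    have hH := hG.resolve_left hG2
    exact jump_aux hmn (by omega) (Rel.le_trans hQ₁ hQ') hG2 hH

end Helper49_RK
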