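import Pool.Agent.Helper49_RK.Comp

/-!
# Running a certified strategy against an enumeration
-/

namespace Helper49_RK

open Primrec

/-- The first entry of `L` extending `e` by the move `x`. -/
def nextE (L : List Ent) (e : Ent) (x : ℕ) : Ent :=
  ((L.filter fun e' => decide (e'.1 = x :: e.1 ∧ ∀ u ∈ e.2, u ∈ e'.2)).head?).getD e

/-- The initial entry. -/
def initE (L : List Ent) : Ent := ((L.filter fun e => decide (e.1 = [])).head?).getD ([], [])

section

variable (st : ℕ → ℕ → Prop) [DecidableRel st]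

/-- One step of the strategy. -/
def stepE (L : List Ent) (b : ℕ) (e : Ent) (s : ℕ) : Ent :=
  if s.unpair.1 < b ∧ ¬ s.unpair.1 ∈ e.1 ∧ st s.unpair.2 s.unpair.1 then
    nextE L e s.unpair.1 else e

/-- The run of the strategy. -/
def runE (L : List Ent) (b : ℕ) : ℕ → Ent
  | 0 => initE L
  | s + 1 => stepE st L b (runE L b s) s

end

theorem nextP : Primrec fun p : List Ent × (Ent × ℕ) => nextE p.1 p.2.1 p.2.2 := by
  have h : Primrec₂ fun (L : List Ent) (y : ℕ × Ent) =>
      L.filter fun e' => decide (e'.1 = y.1 :: y.2.1 ∧ ∀ u ∈ y.2.2, u ∈ e'.2) :=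
    extP.listFilter
  have h2 : Primrec fun p : List Ent × (Ent × ℕ) =>
      p.1.filter fun e' => decide (e'.1 = p.2.2 :: p.2.1.1 ∧ ∀ u ∈ p.2.1.2, u ∈ e'.2) :=
    h.comp fst ((snd.comp snd).pair (fst.comp snd))
  exact option_getD.comp (list_head?.comp h2) (fst.comp snd)

theorem initP : Primrec initE := by
  have h1 : PrimrecPred fun (e : Ent) => e.1 = [] :=
    Primrec.eq.comp fst (Primrec.const [])
  exact option_getD.comp (list_head?.comp (Primrec.listFilter h1)) (Primrec.const ([], []))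

theorem runP {st : ℕ → ℕ → Prop} [DecidableRel st] (hst : PrimrecRel st) :
    Primrec₂ fun (p : List Ent × ℕ) (s : ℕ) => runE st p.1 p.2 s := by
  have h1 : Primrec fun p : List Ent × ℕ => initE p.1 := initP.comp fst
  -- g (L, b) (s, e) = stepE
  have es : Primrec fun p : (List Ent × ℕ) × (ℕ × Ent) => p.2.1 := fst.comp snd
  have ee : Primrec fun p : (List Ent × ℕ) × (ℕ × Ent) => p.2.2 := snd.comp snd
  have eL : Primrec fun p : (List Ent × ℕ) × (ℕ × Ent) => p.1.1 := fst.comp fst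
  have eb : Primrec fun p : (List Ent × ℕ) × (ℕ × Ent) => p.1.2 := snd.comp fst
  have e1 : Primrec fun p : (List Ent × ℕ) × (ℕ × Ent) => p.2.1.unpair.1 :=
    fst.comp (unpair.comp es)
  have e2 : Primrec fun p : (List Ent × ℕ) × (ℕ × Ent) => p.2.1.unpair.2 :=
    snd.comp (unpair.comp es)
  have hc : PrimrecPred fun p : (List Ent × ℕ) × (ℕ × Ent) =>
      p.2.1.unpair.1 < p.1.2 ∧ ¬ p.2.1.unpair.1 ∈ p.2.2.1 ∧ st p.2.1.unpair.2 p.2.1.unpair.1 :=
    (nat_lt.comp e1 eb).and ((memP e1 (fst.comp ee)).not.and (hst.comp e2 e1))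
  have h2 : Primrec₂ fun (p : List Ent × ℕ) (y : ℕ × Ent) => stepE st p.1 p.2 y.2 y.1 := by
    have : Primrec fun p : (List Ent × ℕ) × (ℕ × Ent) => stepE st p.1.1 p.1.2 p.2.2 p.2.1 := by
      unfold stepE
      exact ite hc (nextP.comp (eL.pair (ee.pair e1))) ee
    exact this
  refine (nat_rec h1 h2).of_eq fun p s => ?_
  induction s with
  | zero => rfl
  | succ s ih =>
    show stepE st p.1 p.2 _ s = _
    rw [ih]
    rfl

section Semantics

variable {st : ℕ → ℕ → Prop} [DecidableRel st]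

theorem nextE_spec {L : List Ent} {e : Ent} {x : ℕ}
    (h : ∃ e' ∈ L, e'.1 = x :: e.1 ∧ ∀ u ∈ e.2, u ∈ e'.2) :
    nextE L e x ∈ L ∧ (nextE L e x).1 = x :: e.1 ∧ ∀ u ∈ e.2, u ∈ (nextE L e x).2 := by
  unfold nextE
  set F := L.filter fun e' => decide (e'.1 = x :: e.1 ∧ ∀ u ∈ e.2, u ∈ e'.2) with hF
  have hmem : ∀ e' ∈ F, e' ∈ L ∧ e'.1 = x :: e.1 ∧ ∀ u ∈ e.2, u ∈ e'.2 := by
    intro e' he'
    rw [hF, List.mem_filter] at he'
    exact ⟨he'.1, by simpa using he'.2⟩
  obtain ⟨e', he', h'⟩ := h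
  have hne : e' ∈ F := by
    rw [hF, List.mem_filter]
    exact ⟨he', by simpa using h'⟩
  match hF2 : F, hne with
  | f :: F', _ =>
    simpa using hmem f (by simp)

theorem initE_spec {L : List Ent} (h : ∃ e ∈ L, e.1 = []) :
    initE L ∈ L ∧ (initE L).1 = [] := by
  unfold initE
  set F := L.filter fun e => decide (e.1 = []) with hF
  have hmem : ∀ e' ∈ F, e' ∈ L ∧ e'.1 = [] := by
    intro e' he'
    rw [hF, List.mem_filter] at he'
    exact ⟨he'.1, by simpa using he'.2⟩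
  obtain ⟨e', he', h'⟩ := h
  have hne : e' ∈ F := by
    rw [hF, List.mem_filter]
    exact ⟨he', by simpa using h'⟩
  match hF2 : F, hne with
  | f :: F', _ =>
    simpa using hmem f (by simp)

/-- The width condition on the enumerated relation. -/
def Width (st : ℕ → ℕ → Prop) (w : ℕ) : Prop :=
  ∀ R : List ℕ, R.Nodup → (∀ y ∈ R, ∃ t, st t y) → ∀ x, (sameKey x R).length ≤ w

variable {m ρ w q N : ℕ} {L : List Ent}

theorem run_inv (hw : Width st w) (hC : Cert m ρ w q N L) (s : ℕ) :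
    runE st L (bnd N) s ∈ L ∧ (runE st L (bnd N) s).1.Nodup ∧
      (∀ y ∈ (runE st L (bnd N) s).1, ∃ t, st t y) ∧
      (∀ y ∈ (runE st L (bnd N) s).1, y < bnd N) := by
  induction s with
  | zero =>
    obtain ⟨h1, h2⟩ := initE_spec hC.2.1
    refine ⟨h1, ?_, ?_, ?_⟩ <;> simp [runE, h2]
  | succ s ih =>
    set e := runE st L (bnd N) s with he
    have hstep : runE st L (bnd N) (s + 1) = stepE st L (bnd N) e s := rfl
    rw [hstep]
    unfold stepE
    split_ifs with hc
    · obtain ⟨hb, hx, hst⟩ := hc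
      obtain ⟨ihL, ihnd, iht, ihb⟩ := ih
      have hOK := (hC.2.2 e ihL).2.2 _ hb
      have hnd : (s.unpair.1 :: e.1).Nodup := List.nodup_cons.2 ⟨hx, ihnd⟩
      have htrue : ∀ y ∈ s.unpair.1 :: e.1, ∃ t, st t y := by
        intro y hy
        rw [List.mem_cons] at hy
        rcases hy with rfl | hy
        · exact ⟨_, hst⟩
        · exact iht y hy
      have hlt : ∀ y ∈ s.unpair.1 :: e.1, y < bnd N := by
        intro y hy
        rw [List.mem_cons] at hy
        rcases hy with rfl | hy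
        · exact hb
        · exact ihb y hy
      have hex : ∃ e' ∈ L, e'.1 = s.unpair.1 :: e.1 ∧ ∀ u ∈ e.2, u ∈ e'.2 := by
        rcases hOK with h | h | h
        · exact absurd h hx
        · exfalso
          have h2 := hw _ hnd htrue s.unpair.1
          unfold sameKey at h2 h
          rw [List.filter_cons_of_pos (by simp), List.length_cons] at h2
          omega
        · exact h
      obtain ⟨h1, h2, h3⟩ := nextE_spec hex
      rw [h2]
      exact ⟨h1, hnd, htrue, hlt⟩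
    · exact ih

theorem run_step (hw : Width st w) (hC : Cert m ρ w q N L) (s : ℕ) :
    (runE st L (bnd N) (s + 1) = runE st L (bnd N) s ∧
      ¬ (s.unpair.1 < bnd N ∧ ¬ s.unpair.1 ∈ (runE st L (bnd N) s).1 ∧
        st s.unpair.2 s.unpair.1)) ∨
    ((runE st L (bnd N) (s + 1)).1 = s.unpair.1 :: (runE st L (bnd N) s).1 ∧
      ∀ u ∈ (runE st L (bnd N) s).2, u ∈ (runE st L (bnd N) (s + 1)).2) := by
  set e := runE st L (bnd N) s with he
  have hstep : runE st L (bnd N) (s + 1) = stepE st L (bnd N) e s := rfl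
  rw [hstep]
  unfold stepE
  by_cases hc : s.unpair.1 < bnd N ∧ ¬ s.unpair.1 ∈ e.1 ∧ st s.unpair.2 s.unpair.1
  · right
    rw [if_pos hc]
    obtain ⟨hb, hx, hst⟩ := hc
    obtain ⟨ihL, ihnd, iht, ihb⟩ := run_inv hw hC s
    have hOK := (hC.2.2 e ihL).2.2 _ hb
    have hnd : (s.unpair.1 :: e.1).Nodup := List.nodup_cons.2 ⟨hx, ihnd⟩
    have htrue : ∀ y ∈ s.unpair.1 :: e.1, ∃ t, st t y := by
      intro y hy
      rw [List.mem_cons] at hy
      rcases hy with rfl | hy
      · exact ⟨_, hst⟩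
      · exact iht y hy
    have hex : ∃ e' ∈ L, e'.1 = s.unpair.1 :: e.1 ∧ ∀ u ∈ e.2, u ∈ e'.2 := by
      rcases hOK with h | h | h
      · exact absurd h hx
      · exfalso
        have h2 := hw _ hnd htrue s.unpair.1
        unfold sameKey at h2 h
        rw [List.filter_cons_of_pos (by simp), List.length_cons] at h2
        omega
      · exact h
    obtain ⟨h1, h2, h3⟩ := nextE_spec hex
    exact ⟨h2, h3⟩
  · left
    rw [if_neg hc]
    exact ⟨rfl, hc⟩

theorem run_mono_succ (hw : Width st w) (hC : Cert m ρ w q N L) (s : ℕ) :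
    (∀ y ∈ (runE st L (bnd N) s).1, y ∈ (runE st L (bnd N) (s + 1)).1) ∧
    (∀ u ∈ (runE st L (bnd N) s).2, u ∈ (runE st L (bnd N) (s + 1)).2) := by
  rcases run_step hw hC s with ⟨h1, _⟩ | ⟨h1, h2⟩
  · rw [h1]; exact ⟨fun y hy => hy, fun u hu => hu⟩
  · rw [h1]; exact ⟨fun y hy => List.mem_cons_of_mem _ hy, h2⟩

theorem run_mono (hw : Width st w) (hC : Cert m ρ w q N L) {s t : ℕ} (hst : s ≤ t) :
    (∀ y ∈ (runE st L (bnd N) s).1, y ∈ (runE st L (bnd N) t).1) ∧
    (∀ u ∈ (runE st L (bnd N) s).2, u ∈ (runE st L (bnd N) t).2) := by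
  induction hst with
  | refl => exact ⟨fun y hy => hy, fun u hu => hu⟩
  | @step t _ ih =>
    obtain ⟨h1, h2⟩ := run_mono_succ hw hC t
    exact ⟨fun y hy => h1 y (ih.1 y hy), fun u hu => h2 u (ih.2 u hu)⟩

theorem run_limit (hw : Width st w) (hC : Cert m ρ w q N L) :
    ∃ s₀, ∀ s, s₀ ≤ s → runE st L (bnd N) s = runE st L (bnd N) s₀ := by
  have hlen : ∀ s, (runE st L (bnd N) s).1.length ≤ bnd N := by
    intro s
    obtain ⟨_, hnd, _, hb⟩ := run_inv hw hC s
    have h1 : (runE st L (bnd N) s).1.toFinset ⊆ Finset.range (bnd N) := by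
      intro y hy
      rw [List.mem_toFinset] at hy
      exact Finset.mem_range.2 (hb y hy)
    have h2 := Finset.card_le_card h1
    rwa [List.toFinset_card_of_nodup hnd, Finset.card_range] at h2
  -- choose a stage with maximal length
  have hmax : ∃ s₀, ∀ s, (runE st L (bnd N) s).1.length ≤ (runE st L (bnd N) s₀).1.length := by
    by_contra hcon
    push Not at hcon
    have : ∀ k, ∃ s, k ≤ (runE st L (bnd N) s).1.length := by
      intro k
      induction k with
      | zero => exact ⟨0, Nat.zero_le _⟩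
      | succ k ih =>
        obtain ⟨s, hs⟩ := ih
        obtain ⟨t, ht⟩ := hcon s
        exact ⟨t, by omega⟩
    obtain ⟨s, hs⟩ := this (bnd N + 1)
    have := hlen s
    omega
  obtain ⟨s₀, hs₀⟩ := hmax
  refine ⟨s₀, fun s hs => ?_⟩
  induction hs with
  | refl => rfl
  | @step t _ ih =>
    rcases run_step hw hC t with ⟨h1, _⟩ | ⟨h1, _⟩
    · rw [h1, ih]
    · exfalso
      have h2 := hs₀ (t + 1)
      rw [h1, List.length_cons, ih] at h2
      omega

theorem run_complete (hw : Width st w) (hC : Cert m ρ w q N L) {x t : ℕ} (hx : x < bnd N)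
    (hst : st t x) : x ∈ (runE st L (bnd N) (Nat.pair x t + 1)).1 := by
  rcases run_step hw hC (Nat.pair x t) with ⟨h1, h2⟩ | ⟨h1, _⟩
  · rw [h1]
    by_contra hcon
    apply h2
    simp only [Nat.unpair_pair]
    exact ⟨hx, hcon, hst⟩
  · rw [h1]
    simp

theorem tri_lt_bnd {N i z a : ℕ} (hi : i ≤ N) (hz : z < 2 ^ N) (ha : a < 2 ^ N) :
    tri i z a < bnd N := by
  have hN : N < 2 ^ N := Nat.lt_two_pow_self
  have h1 : Nat.pair z a < (2 ^ (N + 1)) ^ 2 := by
    refine (Nat.pair_lt_max_add_one_sq z a).trans_le (Nat.pow_le_pow_left ?_ 2)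
    rw [pow_succ]
    have : max z a < 2 ^ N := max_lt hz ha
    omega
  have h2 : 2 ^ N + 1 ≤ (2 ^ (N + 1)) ^ 2 := by
    have h3 : 2 ^ N + 1 ≤ 2 ^ (N + 1) := by rw [pow_succ]; have := Nat.one_le_two_pow (n := N); omega
    exact h3.trans (Nat.le_self_pow two_ne_zero _)
  unfold tri bnd
  calc Nat.pair i (Nat.pair z a) < (max i (Nat.pair z a) + 1) ^ 2 :=
        Nat.pair_lt_max_add_one_sq _ _
    _ ≤ ((2 ^ (N + 1)) ^ 2) ^ 2 := by
        apply Nat.pow_le_pow_left
        have : max i (Nat.pair z a) < (2 ^ (N + 1)) ^ 2 := max_lt (by omega) h1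
        omega
    _ = 2 ^ (4 * (N + 1)) := by rw [← pow_mul, ← pow_mul]; congr 1; ring

/-- The outcome of the run. -/
theorem run_outcome (hw : Width st w) (hC : Cert m ρ w q N L) :
    ∃ U : List ℕ, U.length * 2 ^ q ≤ 2 ^ N ∧
      (∀ u, (∃ s, u ∈ (runE st L (bnd N) s).2) ↔ u ∈ U) ∧
      ∃ a < 2 ^ N, a / 2 ^ (N - m) = ρ ∧ ∀ z < 2 ^ N, z ∈ U ∨
        ∃ i ≤ N, ∀ t, ¬ st t (tri i (z / 2 ^ (N - i)) (a / 2 ^ (N - i))) := by
  obtain ⟨s₀, hs₀⟩ := run_limit hw hC
  obtain ⟨hL, _, _, _⟩ := run_inv hw hC s₀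
  obtain ⟨⟨a, ha, haρ, hfail⟩, hlen, _⟩ := hC.2.2 _ hL
  refine ⟨(runE st L (bnd N) s₀).2, hlen, ?_, a, ha, haρ, ?_⟩
  · intro u
    constructor
    · rintro ⟨s, hs⟩
      have h1 := (run_mono hw hC (le_max_left s s₀)).2 u hs
      rwa [hs₀ _ (le_max_right s s₀)] at h1
    · intro h; exact ⟨s₀, h⟩
  · intro z hz
    rcases hfail z hz with h | ⟨i, hi, h⟩
    · exact Or.inl h
    · refine Or.inr ⟨i, by omega, fun t ht => h ?_⟩
      have hlt : tri i (z / 2 ^ (N - i)) (a / 2 ^ (N - i)) < bnd N :=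
        tri_lt_bnd (by omega) ((Nat.div_le_self _ _).trans_lt hz)
          ((Nat.div_le_self _ _).trans_lt ha)
      have h1 := run_complete hw hC hlt ht
      have h2 := (run_mono hw hC (le_max_left _ s₀)).1 _ h1
      rwa [hs₀ _ (le_max_right _ s₀)] at h2

end Semantics

end Helper49_RK
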