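import Pool.Agent.Helper49_RK.Defs
import Pool.Agent.Helper49_RK.Run

/-!
# Strings as numbers
-/

namespace Helper49_RK

open Primrec

/-- A bit as a number. -/
def bit (b : Bool) : ℕ := if b then 1 else 0

/-- The number with binary digits `σ` (most significant first). -/
def val (σ : List Bool) : ℕ := σ.foldl (fun s b => 2 * s + bit b) 0

/-- The string of length `n` of the binary digits of `v`. -/
def toStr (n v : ℕ) : List Bool :=
  (List.range n).map fun i => decide (v / 2 ^ (n - 1 - i) % 2 = 1)

theorem valP : Primrec val := by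
  have hb : Primrec bit := Primrec.dom_bool _
  have h : Primrec₂ fun (_ : List Bool) (p : ℕ × Bool) => 2 * p.1 + bit p.2 :=
    nat_add.comp (nat_mul.comp (Primrec.const 2) (fst.comp snd)) (hb.comp (snd.comp snd))
  exact list_foldl Primrec.id (Primrec.const 0) h

theorem toStrP : Primrec₂ toStr := by
  have h : PrimrecRel fun (p : ℕ × ℕ) (i : ℕ) => p.2 / 2 ^ (p.1 - 1 - i) % 2 = 1 :=
    Primrec.eq.comp (nat_mod.comp (ancP (snd.comp fst) (nat_sub.comp (fst.comp fst)
      (Primrec.const 1)) snd) (Primrec.const 2)) (Primrec.const 1)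
  exact list_map (list_range.comp fst) h.decide

theorem seg_succ (Z : ℕ → Bool) (n : ℕ) : seg Z (n + 1) = seg Z n ++ [Z n] := by
  simp [seg, List.range_succ]

@[simp] theorem length_seg (Z : ℕ → Bool) (n : ℕ) : (seg Z n).length = n := by simp [seg]

theorem val_seg_succ (Z : ℕ → Bool) (n : ℕ) :
    val (seg Z (n + 1)) = 2 * val (seg Z n) + bit (Z n) := by
  rw [seg_succ, val, List.foldl_append]
  rfl

theorem bit_lt (b : Bool) : bit b < 2 := by cases b <;> simp [bit]

theorem val_seg_lt (Z : ℕ → Bool) (n : ℕ) : val (seg Z n) < 2 ^ n := by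
  induction n with
  | zero => simp [seg, val]
  | succ n ih =>
    rw [val_seg_succ, pow_succ]
    have := bit_lt (Z n)
    omega

theorem val_seg_div (Z : ℕ → Bool) {i N : ℕ} (h : i ≤ N) :
    val (seg Z N) / 2 ^ (N - i) = val (seg Z i) := by
  induction h with
  | refl => simp
  | @step N hN ih =>
    have hN' : i ≤ N := hN
    rw [show N.succ - i = (N - i) + 1 by omega, pow_succ', ← Nat.div_div_eq_div_mul,
      show N.succ = N + 1 from rfl, val_seg_succ]
    have := bit_lt (Z N)
    rw [show (2 * val (seg Z N) + bit (Z N)) / 2 = val (seg Z N) by omega]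
    exact ih

theorem toStr_val_seg (Z : ℕ → Bool) (n : ℕ) : toStr n (val (seg Z n)) = seg Z n := by
  unfold toStr
  conv_rhs => unfold seg
  apply List.map_congr_left
  intro i hi
  rw [List.mem_range] at hi
  rw [show n - 1 - i = n - (i + 1) by omega, val_seg_div Z (show i + 1 ≤ n by omega),
    val_seg_succ]
  cases h : Z i
  · simp [bit]
  · simp [bit, Nat.add_mod]

theorem val_toStr {n v : ℕ} (hv : v < 2 ^ n) : val (toStr n v) = v := by
  set Z : ℕ → Bool := fun i => decide (v / 2 ^ (n - 1 - i) % 2 = 1) with hZ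
  have h1 : toStr n v = seg Z n := rfl
  rw [h1]
  have h2 : ∀ i, i ≤ n → val (seg Z i) = v / 2 ^ (n - i) := by
    intro i
    induction i with
    | zero =>
      intro _
      rw [Nat.sub_zero, Nat.div_eq_of_lt hv]
      simp [seg, val]
    | succ i ih =>
      intro hi
      rw [val_seg_succ, ih (by omega)]
      have h3 : n - i = (n - (i + 1)) + 1 := by omega
      rw [h3, pow_succ, ← Nat.div_div_eq_div_mul]
      have h4 : bit (Z i) = v / 2 ^ (n - (i + 1)) % 2 := by
        rw [hZ]
        simp only
        rw [show n - 1 - i = n - (i + 1) by omega]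
        rcases Nat.mod_two_eq_zero_or_one (v / 2 ^ (n - (i + 1))) with h | h <;> simp [bit, h]
      rw [h4]
      omega
  have := h2 n le_rfl
  simpa using this

end Helper49_RK
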